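import Mathlib

/-!
# LR OneDefs: the interface between the one-variable part (helper62, helper41) and the geometry (project LOG-R)
-/

set_option autoImplicit false

open Topology Filter Metric MvPolynomial

noncomputable section

namespace Pool.Agent.H46.LR

/-- Where `exp (ψ z) ∉ B₀` the meromorphic function `g` has a finite value, not `0` and not `1`. -/
def OmitsAt (B₀ : Set ℂ) (ψ g : ℂ → ℂ) (z : ℂ) : Prop :=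
  Complex.exp (ψ z) ∉ B₀ → ∃ w, w ≠ 0 ∧ w ≠ 1 ∧ Tendsto g (𝓝[≠] z) (𝓝 w)

/-- Where `exp (ψ z) ∉ B₀` the value of `g` is not `p / q` at `exp (ψ z)`. -/
def OmitsSecAt (B₀ : Set ℂ) (p q : Polynomial ℂ) (ψ g : ℂ → ℂ) (z : ℂ) : Prop :=
  Complex.exp (ψ z) ∉ B₀ → ∀ w, Tendsto g (𝓝[≠] z) (𝓝 w) → w * q.eval (Complex.exp (ψ z)) ≠ p.eval (Complex.exp (ψ z))

/-- Where `exp (ψ z) = c` the value of `g` is one of the finitely many points `[s.1 : s.2]` of `ℙ¹`. -/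
def FinAt (c : ℂ) (S : Finset (ℂ × ℂ)) (ψ g : ℂ → ℂ) (z : ℂ) : Prop :=
  Complex.exp (ψ z) = c → ∃ s ∈ S, (s.2 ≠ 0 ∧ Tendsto g (𝓝[≠] z) (𝓝 (s.1 / s.2))) ∨ (s.2 = 0 ∧ Tendsto g (𝓝[≠] z) (Bornology.cobounded ℂ))

/-- On larger and larger discs there are functions `ψ`, `g` with the property `K`, such that `ψ` is close to `φ` and `g` is close to `g₀` on `ball z₀ r`. -/
def Approx (K : (ℂ → ℂ) → (ℂ → ℂ) → ℂ → Prop) (φ g₀ : ℂ → ℂ) (z₀ : ℂ) (r : ℝ) : Prop :=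
  ∀ R ε : ℝ, 0 < R → 0 < ε → ∃ ψ g : ℂ → ℂ, DifferentiableOn ℂ ψ (ball 0 R) ∧ MeromorphicOn g (ball 0 R) ∧ (∀ z ∈ ball (0 : ℂ) R, ‖ψ z - φ z‖ < ε) ∧
    (∀ z ∈ ball z₀ r, ‖g z - g₀ z‖ < ε) ∧ ∀ z ∈ ball (0 : ℂ) R, K ψ g z

/-- the conclusion: the limits are algebraic -/
def Algebraic (B₀ : Set ℂ) (K : (ℂ → ℂ) → (ℂ → ℂ) → ℂ → Prop) : Prop :=
  ∃ (k : ℕ) (Φ : Fin k → MvPolynomial (Fin 2) ℂ), (∀ i, Φ i ≠ 0) ∧ ∀ (φ g₀ : ℂ → ℂ) (z₀ : ℂ) (r : ℝ), 0 < r → DifferentiableOn ℂ g₀ (ball z₀ r) →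
    Approx K φ g₀ z₀ r →
      (∀ a b c : ℂ, a ≠ 0 ∨ b ≠ 0 → (∀ z, φ z = a * z ^ 2 + b * z + c) → ∃ i, ∀ z ∈ ball z₀ r, eval ![Complex.exp (φ z), g₀ z] (Φ i) = 0) ∧
      ∀ c : ℂ, Complex.exp c ∉ B₀ → (∀ z, φ z = c) → ∀ z ∈ ball z₀ r, g₀ z = g₀ z₀

/-- case (N) -/
def MainN : Prop :=
  ∀ (B₀ : Set ℂ) (p q : Polynomial ℂ), B₀.Finite → q ≠ 0 → (∀ t : ℂ, p ≠ Polynomial.C t * q) →
    Algebraic B₀ fun ψ g z => OmitsAt B₀ ψ g z ∧ OmitsSecAt B₀ p q ψ g z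

/-- case (I) -/
def MainI : Prop :=
  ∀ (B₀ : Set ℂ) (c : ℂ) (S : Finset (ℂ × ℂ)), B₀.Finite → c ≠ 0 → ((0 : ℂ), (0 : ℂ)) ∉ S →
    Algebraic B₀ fun ψ g z => OmitsAt B₀ ψ g z ∧ FinAt c S ψ g z

end Pool.Agent.H46.LR
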