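import Pool.Agent.H46.LR.Unit
import Pool.Agent.H46.LR.OneDefs
import Pool.Agent.H4.LU.Caught

/-!
# LR Fin: the nonconstant limits of discs are in the zero set of a form

* `locally_const`: a curve with values in a finite set is constant.
* `limMod_of_algebraic`: the result, from the one-variable part.
-/

set_option autoImplicit false

open Topology Filter MvPolynomial Metric

noncomputable section

namespace Pool.Agent.H46.LR

open Pool.Agent.H17 (PN VanishesAt HolomorphicInto vanishesAt_mk_iff)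
open Pool.Agent.H17BP (rep_mk_fin eval_smul_form)
open Pool.Agent.H17EF (projVar)
open Pool.Agent.H17LG.Variety (FunField)
open Pool.Agent.H62.FC (Homog)
open Pool.Agent.H62.SA (locVar)
open Pool.Agent.H7.Bir (pn_identity)
open Pool.Agent.H13.OT (OrderTwo)
open Pool.Agent.H36.LB (ConvPN IsLimitPN LimModPN)
open Pool.Agent.H4.LU (convPN_open)

variable {N : ℕ}

/-- A holomorphic curve which is in a finite set near `z₀` is constant near `z₀`. -/
theorem locally_const {f : ℂ → PN N} {z₀ : ℂ} (hf : HolomorphicInto f {z₀}) {S : Set (PN N)} (hS : S.Finite) (h : ∀ᶠ z in 𝓝 z₀, f z ∈ S) :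
    ∀ᶠ z in 𝓝 z₀, f z = f z₀ := by
  obtain ⟨φ, hφ, he⟩ := hf z₀ rfl
  obtain ⟨h0, hf0⟩ := he.self_of_nhds
  obtain ⟨j, hj⟩ : ∃ j, φ z₀ j ≠ 0 := by
    by_contra hcon
    push Not at hcon
    exact h0 (funext hcon)
  have hφi : ∀ i, AnalyticAt ℂ (fun z => φ z i) z₀ := fun i => analyticAt_pi_iff.1 hφ i
  have hH : AnalyticAt ℂ (fun z => fun i => φ z i / φ z j) z₀ := analyticAt_pi_iff.2 fun i => (hφi i).div (hφi j) hj
  obtain ⟨r, hr, hb⟩ := Metric.eventually_nhds_iff_ball.1 (((hH.eventually_analyticAt.and he).and h).and ((hφi j).continuousAt.eventually_ne hj))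
  let T : Set (Fin (N + 1) → ℂ) := (fun (x : PN N) i => x.rep i / x.rep j) '' S
  have hT : T.Finite := hS.image _
  have hmaps : ∀ z ∈ ball z₀ r, (fun i => φ z i / φ z j) ∈ T := by
    intro z hz
    obtain ⟨⟨⟨h1, h2⟩, h3⟩, h4⟩ := hb z hz
    obtain ⟨h5, h6⟩ := h2
    obtain ⟨κ, hκ, hrep⟩ := rep_mk_fin h5
    refine ⟨f z, h3, ?_⟩
    funext i
    simp only
    rw [h6, hrep, Pi.smul_apply, Pi.smul_apply, smul_eq_mul, smul_eq_mul, mul_div_mul_left _ _ hκ]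
  have hcont : ContinuousOn (fun z => fun i => φ z i / φ z j) (ball z₀ r) := fun z hz => (hb z hz).1.1.1.continuousAt.continuousWithinAt
  obtain ⟨y, -, hy⟩ := (convex_ball z₀ r).isPreconnected.eqOn_const_of_mapsTo hT.isDiscrete hcont (fun z hz => hmaps z hz)
    ⟨_, hmaps z₀ (mem_ball_self hr)⟩
  filter_upwards [ball_mem_nhds z₀ hr] with z hz
  obtain ⟨⟨⟨-, h2⟩, -⟩, h4⟩ := hb z hz
  obtain ⟨h5, h6⟩ := h2
  rw [h6, hf0, Projectivization.mk_eq_mk_iff']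
  refine ⟨φ z j / φ z₀ j, ?_⟩
  have h7 := (hy hz).trans (hy (mem_ball_self hr)).symm
  funext i
  have h8 := congrFun h7 i
  simp only at h8
  rw [div_eq_div_iff h4 hj] at h8
  rw [Pi.smul_apply, smul_eq_mul]
  field_simp
  linear_combination -h8

/-- a form which does not vanish at `f z₀` does not vanish at `f z` for `z` near `z₀` -/
theorem eventually_not_vanishes {Q : MvPolynomial (Fin (N + 1)) ℂ} {D : ℕ} (hQ : Q.IsHomogeneous D) {f : ℂ → PN N} {z₀ : ℂ}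
    (hf : HolomorphicInto f {z₀}) (h : ¬ VanishesAt Q (f z₀)) : ∀ᶠ z in 𝓝 z₀, ¬ VanishesAt Q (f z) := by
  obtain ⟨φ, hφ, he⟩ := hf z₀ rfl
  obtain ⟨h0, hf0⟩ := he.self_of_nhds
  rw [hf0, vanishesAt_mk_iff hQ _ h0] at h
  filter_upwards [he, (analyticAt_form hφ Q).continuousAt.eventually_ne h] with z h1 h2
  obtain ⟨h3, h4⟩ := h1
  rw [h4, vanishesAt_mk_iff hQ _ h3]
  exact h2

variable {P : Ideal (MvPolynomial (Fin (N + 1)) ℂ)} {s : ℕ} {G : Fin s → MvPolynomial (Fin (N + 1)) ℂ} {A B W₁ W₂ : MvPolynomial (Fin (N + 1)) ℂ}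

/-- what `exists_phases` gives -/
def Phases (P : Ideal (MvPolynomial (Fin (N + 1)) ℂ)) (G : Fin s → MvPolynomial (Fin (N + 1)) ℂ) (A B : MvPolynomial (Fin (N + 1)) ℂ) : Prop :=
  ∀ (l : Filter ℕ) (F : ℕ → ℂ → PN N) (f : ℂ → PN N), IsLimitPN (locVar P G) l F f → OrderTwo f → (∃ z, ¬ VanishesAt B (f z)) →
    ∃ (a b c : ℂ) (φn : ℕ → ℂ → ℂ),
      (∀ R : ℝ, ∀ᶠ n in l, DifferentiableOn ℂ (φn n) (ball 0 R) ∧ ∀ z ∈ ball (0 : ℂ) R, eV P A B (F n z) = Complex.exp (φn n z)) ∧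
      TendstoLocallyUniformlyOn φn (fun z => a * z ^ 2 + b * z + c) l Set.univ ∧
      ∀ z, ConvPN l F f z → eV P A B (f z) = Complex.exp (a * z ^ 2 + b * z + c)

/-- the property `K` holds along the curves in `U` -/
def Along (P : Ideal (MvPolynomial (Fin (N + 1)) ℂ)) (G : Fin s → MvPolynomial (Fin (N + 1)) ℂ) (A B W₁ W₂ : MvPolynomial (Fin (N + 1)) ℂ)
    (K : (ℂ → ℂ) → (ℂ → ℂ) → ℂ → Prop) : Prop :=
  ∀ (F : ℂ → PN N) (ψ : ℂ → ℂ) (z : ℂ), HolomorphicInto F {z} → (∀ᶠ w in 𝓝 z, F w ∈ locVar P G) → (∃ᶠ w in 𝓝[≠] z, ¬ VanishesAt W₂ (F w)) →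
    HasValue P A B (F z) (Complex.exp (ψ z)) 1 → K ψ (fun w => qt W₁ W₂ (F w)) z

/-- the approximation -/
theorem approx_of_limit [P.IsPrime] (h : IsPair P G A B W₁ W₂) {K : (ℂ → ℂ) → (ℂ → ℂ) → ℂ → Prop} (hK : Along P G A B W₁ W₂ K)
    {l : Filter ℕ} {F : ℕ → ℂ → PN N} {f : ℂ → PN N} (hl : IsLimitPN (locVar P G) l F f) {φ : ℂ → ℂ} {φn : ℕ → ℂ → ℂ}
    (h1 : ∀ R : ℝ, ∀ᶠ n in l, DifferentiableOn ℂ (φn n) (ball 0 R) ∧ ∀ z ∈ ball (0 : ℂ) R, eV P A B (F n z) = Complex.exp (φn n z))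
    (h2 : TendstoLocallyUniformlyOn φn φ l Set.univ) {z₀ : ℂ} {r : ℝ} (hr : 0 < r)
    (h3 : ∀ᶠ n in l, ∀ z ∈ ball z₀ r, ¬ VanishesAt W₂ (F n z))
    (h4 : ∀ ε : ℝ, 0 < ε → ∀ᶠ n in l, ∀ z ∈ ball z₀ r, ‖qt W₁ W₂ (F n z) - qt W₁ W₂ (f z)‖ < ε) :
    Approx K φ (fun z => qt W₁ W₂ (f z)) z₀ r := by
  intro R ε hR hε
  obtain ⟨D', hW₁, hW₂⟩ := h.form'
  have hφu : ∀ᶠ n in l, ∀ z ∈ closedBall (0 : ℂ) R, ‖φn n z - φ z‖ < ε := by
    have h5 := (tendstoLocallyUniformlyOn_iff_tendstoUniformlyOn_of_compact (isCompact_closedBall (0 : ℂ) R)).1 (h2.mono (Set.subset_univ _))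
    filter_upwards [Metric.tendstoUniformlyOn_iff.1 h5 ε hε] with n hn z hz
    have := hn z hz
    rwa [dist_comm, dist_eq_norm] at this
  have hbig : ∀ᶠ n : ℕ in l, max R (‖z₀‖ + r) ≤ (n : ℝ) := hl.le_atTop (Filter.tendsto_atTop.1 tendsto_natCast_atTop_atTop _)
  have := hl.neBot
  obtain ⟨n, ⟨⟨hn1, hn1'⟩, hn2⟩, ⟨hn3, hn4⟩, hn5⟩ := (((h1 R).and hφu).and ((h3.and (h4 ε hε)).and hbig)).exists
  have hRn : R ≤ n := (le_max_left _ _).trans hn5
  have hz₀n : ‖z₀‖ + r ≤ n := (le_max_right _ _).trans hn5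
  have hsub : ball (0 : ℂ) R ⊆ ball 0 (n + 1) := ball_subset_ball (by linarith)
  have hz₀mem : z₀ ∈ ball (0 : ℂ) (n + 1) := by
    rw [mem_ball_zero_iff]
    linarith
  have hFn : ∀ z ∈ ball (0 : ℂ) (n + 1), HolomorphicInto (F n) {z} := fun z hz y hy => by
    rw [Set.mem_singleton_iff.1 hy]
    exact hl.holF n z hz
  refine ⟨φn n, fun z => qt W₁ W₂ (F n z), hn1, fun z hz => qt_meromorphic hW₁ hW₂ (hFn z (hsub hz)), fun z hz => hn2 z (ball_subset_closedBall hz),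
    hn4, fun z hz => ?_⟩
  have hzn := hsub hz
  have hU : ∀ᶠ w in 𝓝 z, F n w ∈ locVar P G := by
    filter_upwards [isOpen_ball.mem_nhds hzn] with w hw
    exact hl.memF n w hw
  refine hK (F n) (φn n) z (hFn z hzn) hU ?_ ?_
  · -- the denominator is not identically zero
    by_contra hcon
    rw [not_frequently] at hcon
    push Not at hcon
    obtain ⟨Φ, hΦ, he⟩ := hl.holF n z hzn
    have h5 : ∀ᶠ w in 𝓝[≠] z, eval (Φ w) W₂ = 0 := by
      filter_upwards [hcon, nhdsWithin_le_nhds he] with w h6 h7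
      obtain ⟨h8, h9⟩ := h7
      rwa [h9, vanishesAt_mk_iff hW₂ _ h8] at h6
    have h6 : ∀ᶠ w in 𝓝 z, eval (Φ w) W₂ = 0 := (analyticAt_form hΦ W₂).frequently_zero_iff_eventually_zero.1 h5.frequently
    have h7 : ∀ᶠ w in 𝓝 z, ∀ Q ∈ ({W₂} : Set (MvPolynomial (Fin (N + 1)) ℂ)), VanishesAt Q (F n w) := by
      filter_upwards [h6, he] with w h8 h9 Q hQ
      obtain ⟨h10, h11⟩ := h9
      rw [Set.mem_singleton_iff.1 hQ, h11, vanishesAt_mk_iff hW₂ _ h10]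
      exact h8
    exact hn3 z₀ (mem_ball_self hr) (Pool.Agent.H36.BP.vanish_identity (convex_ball (0 : ℂ) (n + 1)).isPreconnected (hl.holF n)
      (fun Q hQ => ⟨D', (Set.mem_singleton_iff.1 hQ) ▸ hW₂⟩) hzn h7 z₀ hz₀mem W₂ rfl)
  · obtain ⟨v, -, hv⟩ := h.unit _ hU.self_of_nhds
    have h5 := eV_spec hv
    rwa [hn1' z hz] at h5

/-- **The nonconstant limits of discs are in the zero set of a form.** -/
theorem limMod_of_algebraic [P.IsPrime] {z : Fin 2 → FunField P} (hz : IsTranscendenceBasis ℂ z) (h : IsPair P G A B W₁ W₂) {B₀ : Set ℂ}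
    (hB₀ : B₀.Finite) {K : (ℂ → ℂ) → (ℂ → ℂ) → ℂ → Prop} (hK : Along P G A B W₁ W₂ K) (halg : Algebraic B₀ K) (hph : Phases P G A B) :
    ∃ (n : ℕ) (R : MvPolynomial (Fin (N + 1)) ℂ), R.IsHomogeneous n ∧ R ∉ P ∧ LimModPN (locVar P G) {x | x ∈ locVar P G ∧ VanishesAt R x} := by
  classical
  obtain ⟨D, hA, hB⟩ := h.form
  obtain ⟨D', hW₁, hW₂⟩ := h.form'
  obtain ⟨n₁, R₁, hR₁, hR₁P, hR₁v⟩ := exists_constForm hz h
  obtain ⟨k, Φ, hΦ, hmain⟩ := halg
  choose d R hR hRP hRv using fun i => exists_polyForm h (hΦ i)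
  have hAc : ∀ c : ℂ, (A - C c * B).IsHomogeneous D := by
    intro c
    have h1 := (isHomogeneous_C (Fin (N + 1)) c).mul hB
    rw [zero_add] at h1
    exact hA.sub h1
  let S := hB₀.toFinset
  have hQ : ((B * W₂) * (R₁ * ((∏ i, R i) * ∏ c ∈ S, (A - C c * B)))).IsHomogeneous _ :=
    (hB.mul hW₂).mul (hR₁.mul ((IsHomogeneous.prod _ _ _ fun i _ => hR i).mul (IsHomogeneous.prod _ _ _ fun c _ => hAc c)))
  refine ⟨_, _, hQ, ?_, ?_⟩
  · intro hmem
    rcases Ideal.IsPrime.mem_or_mem inferInstance hmem with h1 | h1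
    · rcases Ideal.IsPrime.mem_or_mem inferInstance h1 with h2 | h2
      · exact h.B_notMem h2
      · exact h.W_notMem h2
    · rcases Ideal.IsPrime.mem_or_mem inferInstance h1 with h2 | h2
      · exact hR₁P h2
      · rcases Ideal.IsPrime.mem_or_mem inferInstance h2 with h3 | h3
        · obtain ⟨i, -, hi⟩ := (Ideal.IsPrime.prod_mem_iff (s := Finset.univ)).1 h3
          exact hRP i hi
        · obtain ⟨c, -, hc⟩ := (Ideal.IsPrime.prod_mem_iff (s := S)).1 h3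
          exact h.sub_notMem c hc
  · intro l F f hl hord hne z₁ hz₁
    refine ⟨hz₁, ?_⟩
    by_contra hQ₁
    have hfh : ∀ z, HolomorphicInto f {z} := fun z y hy => hl.hol y (Set.mem_univ _)
    -- a good point
    obtain ⟨z₀, hz₀, hQ₀⟩ : ∃ z₀, ConvPN l F f z₀ ∧ ¬ VanishesAt ((B * W₂) * (R₁ * ((∏ i, R i) * ∏ c ∈ S, (A - C c * B)))) (f z₀) :=
      ((hl.conv z₁).and (nhdsWithin_le_nhds (eventually_not_vanishes hQ (hfh z₁) hQ₁))).exists
    have hz₀U : f z₀ ∈ locVar P G := hl.mem_of_conv z₀ hz₀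
    have hBz : ¬ VanishesAt B (f z₀) := fun h1 => hQ₀ (by
      unfold VanishesAt at h1 ⊢
      rw [map_mul, map_mul, h1, zero_mul, zero_mul])
    have hWz : ¬ VanishesAt W₂ (f z₀) := fun h1 => hQ₀ (by
      unfold VanishesAt at h1 ⊢
      rw [map_mul, map_mul, h1, mul_zero, zero_mul])
    have hR₁z : ¬ VanishesAt R₁ (f z₀) := fun h1 => hQ₀ (by
      unfold VanishesAt at h1 ⊢
      rw [map_mul, map_mul _ R₁, h1, zero_mul, mul_zero])
    have hRz : ∀ i, ¬ VanishesAt (R i) (f z₀) := fun i h1 => hQ₀ (by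
      unfold VanishesAt at h1 ⊢
      rw [map_mul, map_mul _ R₁, map_mul _ (∏ i, R i), map_prod, Finset.prod_eq_zero (Finset.mem_univ i) h1, zero_mul, mul_zero, mul_zero])
    have hcz : ∀ c ∈ B₀, ¬ VanishesAt (A - C c * B) (f z₀) := fun c hc h1 => hQ₀ (by
      unfold VanishesAt at h1 ⊢
      rw [map_mul, map_mul _ R₁, map_mul _ (∏ i, R i), map_prod _ _ S, Finset.prod_eq_zero (hB₀.mem_toFinset.2 hc) h1, mul_zero, mul_zero,
        mul_zero])
    obtain ⟨a, b, c, φn, h1, h2, h3⟩ := hph l F f hl hord ⟨z₀, hBz⟩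
    obtain ⟨r, hr, hd, hW, hWn, hq⟩ := qt_unif hW₁ hW₂ hz₀ hWz
    have happ := approx_of_limit h hK hl h1 h2 hr hWn hq
    obtain ⟨hcA, hcB⟩ := hmain _ _ z₀ r hr hd happ
    -- the values of `e`
    have heq : ∀ w, ConvPN l F f w → ¬ VanishesAt B (f w) → qt A B (f w) = Complex.exp (a * w ^ 2 + b * w + c) := by
      intro w hw hBw
      rw [← h3 w hw]
      exact (eV_eq h.B_notMem (locVar_sub (hl.mem_of_conv w hw)) (HasValue.of_qt hA hB hBw)).symm
    by_cases hab : a ≠ 0 ∨ b ≠ 0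
    · obtain ⟨i, hi⟩ := hcA a b c hab fun _ => rfl
      have h4 := hi z₀ (mem_ball_self hr)
      rw [← heq z₀ hz₀ hBz] at h4
      exact hRz i (hRv i _ hBz hWz h4)
    · push Not at hab
      obtain ⟨rfl, rfl⟩ := hab
      have hc : Complex.exp c ∉ B₀ := by
        intro hc
        apply hcz _ hc
        have h4 := heq z₀ hz₀ hBz
        have h5 : (0 : ℂ) * z₀ ^ 2 + 0 * z₀ + c = c := by ring
        rw [h5] at h4
        unfold qt at h4
        unfold VanishesAt at hBz ⊢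
        rw [div_eq_iff hBz] at h4
        rw [map_sub, map_mul, eval_C, h4, sub_self]
      have h4 := hcB c hc fun z => by ring
      have h5 : ∀ᶠ w in 𝓝 z₀, f w ∈ {x : PN N | x ∈ projVar P ∧ ¬ VanishesAt B x ∧ ¬ VanishesAt W₂ x ∧ ¬ VanishesAt R₁ x ∧
          eval x.rep A / eval x.rep B = Complex.exp c ∧ eval x.rep W₁ / eval x.rep W₂ = qt W₁ W₂ (f z₀)} := by
        filter_upwards [convPN_open hz₀, eventually_not_vanishes hB (hfh z₀) hBz, eventually_not_vanishes hR₁ (hfh z₀) hR₁z,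
          ball_mem_nhds z₀ hr] with w hw1 hw2 hw3 hw4
        refine ⟨locVar_sub (hl.mem_of_conv w hw1), hw2, hW w hw4, hw3, ?_, h4 w hw4⟩
        have h6 := heq w hw1 hw2
        rw [show (0 : ℂ) * w ^ 2 + 0 * w + c = c by ring] at h6
        exact h6
      have h6 := locally_const (hfh z₀) (hR₁v _ _) h5
      have h7 : HolomorphicInto (fun _ : ℂ => f z₀) Set.univ := fun z _ =>
        ⟨fun _ => (f z₀).rep, analyticAt_const, Eventually.of_forall fun w => ⟨(f z₀).rep_nonzero, (Projectivization.mk_rep _).symm⟩⟩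
      have h8 := pn_identity isPreconnected_univ hl.hol h7 (Set.mem_univ z₀) h6
      obtain ⟨u, v, huv⟩ := hne
      exact huv (by rw [h8 u (Set.mem_univ u), h8 v (Set.mem_univ v)])

end Pool.Agent.H46.LR
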