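import Pool.Agent.H36.LB.Final
import Pool.Agent.H19Q.Surf

/-!
# LR Defs: surfaces with an invertible regular function `e` and a rational function `w` which omits `0`, `1`, `λ ∘ e` (project LOG-R)
-/

set_option autoImplicit false

open MvPolynomial

noncomputable section

namespace Pool.Agent.H46.LR

open Pool.Agent.H17 (PN VanishesAt)
open Pool.Agent.H13.SM (conTan)
open Pool.Agent.H62.SA (locVar)
open Pool.Agent.H36.LB (IsCurveComplement)
open Pool.Agent.H19Q (QSurface)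

variable {N : ℕ}

/-- The rational map `[A : B]` from `X` to `ℙ¹` is regular at the point `x`, and its value is `[s : t]`. -/
def HasValue (P : Ideal (MvPolynomial (Fin (N + 1)) ℂ)) (A B : MvPolynomial (Fin (N + 1)) ℂ) (x : PN N) (s t : ℂ) : Prop :=
  ∃ (D : ℕ) (a b : MvPolynomial (Fin (N + 1)) ℂ), a.IsHomogeneous D ∧ b.IsHomogeneous D ∧ a * B - b * A ∈ P ∧
    ¬ (VanishesAt a x ∧ VanishesAt b x) ∧ eval x.rep a * t = eval x.rep b * s

/-- `e = A / B` is a regular function without zeros on `U = locVar P G`, and `w = W₁ / W₂` is a rational function, such that `e` and `w` are algebraically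
independent. -/
structure IsPair {s : ℕ} (P : Ideal (MvPolynomial (Fin (N + 1)) ℂ)) (G : Fin s → MvPolynomial (Fin (N + 1)) ℂ)
    (A B W₁ W₂ : MvPolynomial (Fin (N + 1)) ℂ) : Prop where
  form : ∃ D : ℕ, A.IsHomogeneous D ∧ B.IsHomogeneous D
  form' : ∃ D : ℕ, W₁.IsHomogeneous D ∧ W₂.IsHomogeneous D
  indep : ∀ Φ : MvPolynomial (Fin 2) ℂ, Φ ≠ 0 → ∃ x ∈ locVar P G, ¬ VanishesAt B x ∧ ¬ VanishesAt W₂ x ∧
    eval ![eval x.rep A / eval x.rep B, eval x.rep W₁ / eval x.rep W₂] Φ ≠ 0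
  unit : ∀ x ∈ locVar P G, ∃ v, v ≠ 0 ∧ HasValue P A B x v 1

/-- At all points `x` of `U` with `e x ∉ B₀` the function `w` is regular and `w x ≠ 0, 1`. -/
def Omits {s : ℕ} (P : Ideal (MvPolynomial (Fin (N + 1)) ℂ)) (G : Fin s → MvPolynomial (Fin (N + 1)) ℂ)
    (A B W₁ W₂ : MvPolynomial (Fin (N + 1)) ℂ) (B₀ : Set ℂ) : Prop :=
  ∀ x ∈ locVar P G, ∀ v, HasValue P A B x v 1 → v ∉ B₀ → ∃ w, w ≠ 0 ∧ w ≠ 1 ∧ HasValue P W₁ W₂ x w 1

/-- At all points `x` of `U` with `e x ∉ B₀` one has `w x ≠ λ (e x)`, where `λ = p / q`. -/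
def OmitsSection {s : ℕ} (P : Ideal (MvPolynomial (Fin (N + 1)) ℂ)) (G : Fin s → MvPolynomial (Fin (N + 1)) ℂ)
    (A B W₁ W₂ : MvPolynomial (Fin (N + 1)) ℂ) (B₀ : Set ℂ) (p q : Polynomial ℂ) : Prop :=
  ∀ x ∈ locVar P G, ∀ v w, HasValue P A B x v 1 → v ∉ B₀ → HasValue P W₁ W₂ x w 1 → w * q.eval v ≠ p.eval v

/-- At all points of `U` with `e x = c` the map `w` to `ℙ¹` is regular, and it has finitely many values at these points. -/
def FiniteOver {s : ℕ} (P : Ideal (MvPolynomial (Fin (N + 1)) ℂ)) (G : Fin s → MvPolynomial (Fin (N + 1)) ℂ)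
    (A B W₁ W₂ : MvPolynomial (Fin (N + 1)) ℂ) (c : ℂ) : Prop :=
  ∃ S : Finset (ℂ × ℂ), ((0 : ℂ), (0 : ℂ)) ∉ S ∧ ∀ x ∈ locVar P G, HasValue P A B x c 1 → ∃ s ∈ S, HasValue P W₁ W₂ x s.1 s.2

/-- `U` is the complement of a curve in a smooth projective surface, and there are an invertible regular function `e` on `U` and a rational function `w` on `U`
which are algebraically independent, such that, outside finitely many fibres of `e`, the function `w` is regular and omits the values `0` and `1`, and either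
it omits also the values of the function `λ ∘ e` there, where `λ` is a nonconstant rational function, or, near some fibre of `e`, `w` is a regular map to `ℙ¹`, with
finitely many values on this fibre. -/
structure IsBaseR (U : QSurface) : Prop where
  /-- the closure of `U` is smooth -/
  smooth : ∀ y : Fin (U.N + 1) → ℂ, y ≠ 0 → (∀ Q ∈ U.P, eval y Q = 0) → Module.finrank ℂ (conTan U.P y) ≤ 3
  curve : IsCurveComplement U.P U.G
  model : ∃ (A B W₁ W₂ : MvPolynomial (Fin (U.N + 1)) ℂ) (B₀ : Set ℂ), IsPair U.P U.G A B W₁ W₂ ∧ B₀.Finite ∧ Omits U.P U.G A B W₁ W₂ B₀ ∧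
    ((∃ p q : Polynomial ℂ, q ≠ 0 ∧ (∀ t : ℂ, p ≠ Polynomial.C t * q) ∧ OmitsSection U.P U.G A B W₁ W₂ B₀ p q) ∨
      ∃ c : ℂ, c ≠ 0 ∧ FiniteOver U.P U.G A B W₁ W₂ c)

end Pool.Agent.H46.LR
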