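import Pool.Agent.H46.LR.Main
import Pool.Agent.H13.LU.PhCore

/-!
# LR Ph: `e (F n z) = exp (φ n z)`, `φ n → a z² + b z + c`
-/

set_option autoImplicit false

open Topology Filter MvPolynomial Metric

noncomputable section

namespace Pool.Agent.H46.LR

open Pool.Agent.H17 (PN VanishesAt HolomorphicInto)
open Pool.Agent.H62.SA (locVar)
open Pool.Agent.H7.Bir (GGLOpen)
open Pool.Agent.H14.KB (KobayashiHyperbolicModulo)
open Pool.Agent.H36.LB (ConvPN IsLimitPN LimModPN)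
open Pool.Agent.H19Q (QSurface)

variable {N : ℕ} {P : Ideal (MvPolynomial (Fin (N + 1)) ℂ)} {s : ℕ} {G : Fin s → MvPolynomial (Fin (N + 1)) ℂ}
  {A B W₁ W₂ : MvPolynomial (Fin (N + 1)) ℂ}

/-- the values of `e` near a point, in terms of local forms -/
theorem eV_conv [P.IsPrime] (h : IsPair P G A B W₁ W₂) {l : Filter ℕ} {F : ℕ → ℂ → PN N} {f : ℂ → PN N} (hl : IsLimitPN (locVar P G) l F f)
    {z : ℂ} (hz : ConvPN l F f z) :
    ∃ r : ℝ, 0 < r ∧ TendstoLocallyUniformlyOn (fun n z => eV P A B (F n z)) (fun z => eV P A B (f z)) l (ball z r) := by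
  have hzU : f z ∈ locVar P G := hl.mem_of_conv z hz
  obtain ⟨v, -, d, a, b, ha, hb, hab, hne, hv⟩ := h.unit _ hzU
  have hbz : ¬ VanishesAt b (f z) := by
    intro h1
    apply hne
    refine ⟨?_, h1⟩
    unfold VanishesAt at h1 ⊢
    rw [mul_one] at hv
    rw [hv, h1, zero_mul]
  have hval : ∀ x ∈ locVar P G, ¬ VanishesAt b x → eV P A B x = qt a b x := by
    intro x hx hbx
    refine eV_eq h.B_notMem (locVar_sub hx) ⟨d, a, b, ha, hb, hab, fun h10 => hbx h10.2, ?_⟩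
    unfold VanishesAt at hbx
    unfold qt
    field_simp
  obtain ⟨r, hr, -, hbf, hbF, hq⟩ := qt_unif ha hb hz hbz
  obtain ⟨r₁, hr₁, hc⟩ := Metric.eventually_nhds_iff_ball.1 (Pool.Agent.H4.LU.convPN_open hz)
  refine ⟨min r r₁, lt_min hr hr₁, TendstoUniformlyOn.tendstoLocallyUniformlyOn ?_⟩
  rw [Metric.tendstoUniformlyOn_iff]
  intro ε hε
  have hbig : ∀ᶠ n : ℕ in l, ‖z‖ + r ≤ (n : ℝ) := hl.le_atTop (Filter.tendsto_atTop.1 tendsto_natCast_atTop_atTop _)
  filter_upwards [hbF, hq ε hε, hbig] with n h1 h2 h3 w hw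
  have hwr : w ∈ ball z r := ball_subset_ball (min_le_left _ _) hw
  have hwr₁ : w ∈ ball z r₁ := ball_subset_ball (min_le_right _ _) hw
  have hwn : w ∈ ball (0 : ℂ) (n + 1) := by
    rw [mem_ball, dist_eq_norm] at hwr
    rw [mem_ball_zero_iff]
    have := norm_sub_norm_le w z
    linarith
  rw [hval _ (hl.memF n w hwn) (h1 w hwr), hval _ (hl.mem_of_conv w (hc w hwr₁)) (hbf w hwr), dist_comm, dist_eq_norm]
  exact h2 w hwr

theorem phases_of_pair [P.IsPrime] (h : IsPair P G A B W₁ W₂) : Phases P G A B := by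
  intro l F f hl hord hv
  obtain ⟨D, hA, hB⟩ := h.form
  obtain ⟨a, b, c, φn, h1, h2, h3, h4⟩ := Pool.Agent.H13.LU.phases_core hl hord (e := eV P A B)
    (fun n z hz => by
      refine (eV_analytic h (hl.holF n z hz) ?_).differentiableAt.differentiableWithinAt
      filter_upwards [isOpen_ball.mem_nhds hz] with w hw
      exact hl.memF n w hw)
    (fun n z hz => eV_ne_zero h (hl.memF n z hz)) (fun z hz => eV_conv h hl hz) (fun z hz => eV_ne_zero h (hl.mem_of_conv z hz)) hA hB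
    (fun z hz => by
      obtain ⟨v, -, hv⟩ := h.unit _ (hl.mem_of_conv z hz)
      exact eV_mul hA hB (locVar_sub (hl.mem_of_conv z hz)) (eV_spec hv)) hv
  refine ⟨a, b, c, φn, fun R => ?_, ?_, h4⟩
  · have hbig : ∀ᶠ n : ℕ in l, R ≤ (n : ℝ) := hl.le_atTop (Filter.tendsto_atTop.1 tendsto_natCast_atTop_atTop _)
    filter_upwards [hbig] with n hn
    have hsub : ball (0 : ℂ) R ⊆ ball 0 (n + 1) := ball_subset_ball (by linarith)
    exact ⟨(h1 n).mono hsub, fun z hz => (h2 n z (hsub hz)).symm⟩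
  · rw [Metric.tendstoLocallyUniformlyOn_iff]
    intro ε hε z _
    refine ⟨closedBall 0 (‖z‖ + 1), mem_nhdsWithin_of_mem_nhds ?_, ?_⟩
    · refine closedBall_mem_nhds_of_mem ?_
      rw [mem_ball_zero_iff]
      linarith
    · exact Metric.tendstoUniformlyOn_iff.1 (h3 (‖z‖ + 1)) ε hε

/-- The surfaces of `IsBaseR`, from the one-variable part. -/
theorem base_mainR (hN : MainN) (hI : MainI) {U : QSurface} (hU : IsBaseR U) (hgt : U.LogGeneralType) :
    ∃ Ξ : Set (PN U.N), GGLOpen U.P U.G Ξ ∧ ∃ (Q : MvPolynomial (Fin (U.N + 1)) ℂ) (D : ℕ), Q.IsHomogeneous D ∧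
      (∃ x ∈ locVar U.P U.G, ¬ VanishesAt Q x) ∧ (∀ x, x ∈ Ξ ↔ x ∈ locVar U.P U.G ∧ VanishesAt Q x) ∧
        KobayashiHyperbolicModulo (locVar U.P U.G) Q D :=
  base_mainR' hN hI hU (fun _ _ _ _ h => phases_of_pair h) hgt

end Pool.Agent.H46.LR
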