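import Pool.Agent.H46.LR.Defs
import Pool.Agent.H7.Bir.Alg

/-!
# LR Alg: polynomials in `e`, `w` as forms; the curves on which `e` and `w` are constant

* `homF`: the form `B ^ d W₂ ^ d Φ (A / B, W₁ / W₂)`.
* `exists_polyForm`: if `Φ ≠ 0` then `Φ (e, w) = 0` only on a proper closed subset.
* `exists_constForm`: outside a proper closed subset the fibres of `(e, w)` are finite.
-/

set_option autoImplicit false

open Topology Filter MvPolynomial

noncomputable section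

namespace Pool.Agent.H46.LR

open Pool.Agent.H17 (PN VanishesAt vanishesAt_mk_iff)
open Pool.Agent.H17GT (coordFun functionField)
open Pool.Agent.H17LG.Variety (FunField ratio)
open Pool.Agent.H17R (gen gen_eq_zero_iff ratio_self coordFun_ne_zero_iff)
open Pool.Agent.H17EF (projVar)
open Pool.Agent.H62.FC (Homog)
open Pool.Agent.H62.SA (locVar)

variable {N : ℕ}

/-- the form `B ^ d W₂ ^ d Φ (A / B, W₁ / W₂)` -/
def homF (A B W₁ W₂ : MvPolynomial (Fin (N + 1)) ℂ) (d : ℕ) (Φ : MvPolynomial (Fin 2) ℂ) : MvPolynomial (Fin (N + 1)) ℂ :=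
  ∑ m ∈ Φ.support, C (coeff m Φ) * ((A ^ m 0 * B ^ (d - m 0)) * (W₁ ^ m 1 * W₂ ^ (d - m 1)))

theorem le_of_mem {Φ : MvPolynomial (Fin 2) ℂ} {d : ℕ} (hd : Φ.totalDegree ≤ d) {m : Fin 2 →₀ ℕ} (hm : m ∈ Φ.support) (i : Fin 2) : m i ≤ d := by
  have h1 : (m.sum fun _ e => e) ≤ Φ.totalDegree := le_totalDegree hm
  refine le_trans ?_ (h1.trans hd)
  rw [Finsupp.sum_fintype _ _ (fun _ => rfl), Fin.sum_univ_two]
  fin_cases i <;> simp

theorem homF_hom {A B W₁ W₂ : MvPolynomial (Fin (N + 1)) ℂ} {D D' d : ℕ} (hA : A.IsHomogeneous D) (hB : B.IsHomogeneous D)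
    (hW₁ : W₁.IsHomogeneous D') (hW₂ : W₂.IsHomogeneous D') {Φ : MvPolynomial (Fin 2) ℂ} (hd : Φ.totalDegree ≤ d) :
    (homF A B W₁ W₂ d Φ).IsHomogeneous (D * d + D' * d) := by
  refine IsHomogeneous.sum _ _ _ fun m hm => ?_
  have h0 := le_of_mem hd hm 0
  have h1 := le_of_mem hd hm 1
  have h2 := ((hA.pow (m 0)).mul (hB.pow (d - m 0))).mul ((hW₁.pow (m 1)).mul (hW₂.pow (d - m 1)))
  have h3 := (isHomogeneous_C (Fin (N + 1)) (coeff m Φ)).mul h2
  have h4 : 0 + (D * m 0 + D * (d - m 0) + (D' * m 1 + D' * (d - m 1))) = D * d + D' * d := by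
    rw [← Nat.mul_add, ← Nat.mul_add, Nat.add_sub_cancel' h0, Nat.add_sub_cancel' h1, zero_add]
  rw [h4] at h3
  exact h3

theorem homF_map {L : Type} [Field L] [Algebra ℂ L] (ρ : MvPolynomial (Fin (N + 1)) ℂ →ₐ[ℂ] L) {A B W₁ W₂ : MvPolynomial (Fin (N + 1)) ℂ}
    (hB : ρ B ≠ 0) (hW : ρ W₂ ≠ 0) {d : ℕ} {Φ : MvPolynomial (Fin 2) ℂ} (hd : Φ.totalDegree ≤ d) :
    ρ (homF A B W₁ W₂ d Φ) = ρ B ^ d * ρ W₂ ^ d * aeval ![ρ A / ρ B, ρ W₁ / ρ W₂] Φ := by
  unfold homF
  rw [map_sum, aeval_def, eval₂_eq', Finset.mul_sum]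
  refine Finset.sum_congr rfl fun m hm => ?_
  have h0 := le_of_mem hd hm 0
  have h1 := le_of_mem hd hm 1
  rw [Fin.prod_univ_two]
  simp only [Matrix.cons_val_zero, Matrix.cons_val_one, map_mul, map_pow]
  have h2 : ρ (C (coeff m Φ)) = algebraMap ℂ L (coeff m Φ) := ρ.commutes _
  have e0 : ρ B ^ d = ρ B ^ m 0 * ρ B ^ (d - m 0) := by rw [← pow_add, Nat.add_sub_cancel' h0]
  have e1 : ρ W₂ ^ d = ρ W₂ ^ m 1 * ρ W₂ ^ (d - m 1) := by rw [← pow_add, Nat.add_sub_cancel' h1]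
  rw [h2, e0, e1, div_pow, div_pow]
  field_simp

theorem eval_homF {A B W₁ W₂ : MvPolynomial (Fin (N + 1)) ℂ} (x : Fin (N + 1) → ℂ) (hB : eval x B ≠ 0) (hW : eval x W₂ ≠ 0) {d : ℕ}
    {Φ : MvPolynomial (Fin 2) ℂ} (hd : Φ.totalDegree ≤ d) :
    eval x (homF A B W₁ W₂ d Φ) = eval x B ^ d * eval x W₂ ^ d * eval ![eval x A / eval x B, eval x W₁ / eval x W₂] Φ := by
  have h1 := homF_map (L := ℂ) (aeval x) (A := A) (B := B) (W₁ := W₁) (W₂ := W₂) (d := d) (Φ := Φ)
  simp only [MvPolynomial.aeval_eq_eval] at h1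
  exact h1 hB hW hd

theorem sum_aux {L : Type} [Field L] (a : L) (f g : ℕ → L) (n : ℕ) (h : ∀ k ∈ Finset.range n, f k = a * g k)
    (hg : ∑ k ∈ Finset.range n, g k = 0) : ∑ k ∈ Finset.range n, f k = 0 := by
  rw [Finset.sum_congr rfl h, ← Finset.mul_sum, hg, mul_zero]

section

variable {P : Ideal (MvPolynomial (Fin (N + 1)) ℂ)} {s : ℕ} {G : Fin s → MvPolynomial (Fin (N + 1)) ℂ} {A B W₁ W₂ : MvPolynomial (Fin (N + 1)) ℂ}

theorem homF_not_mem (h : IsPair P G A B W₁ W₂) {Φ : MvPolynomial (Fin 2) ℂ} (hΦ : Φ ≠ 0) {d : ℕ} (hd : Φ.totalDegree ≤ d) :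
    homF A B W₁ W₂ d Φ ∉ P := by
  obtain ⟨D, hA, hB⟩ := h.form
  obtain ⟨D', hW₁, hW₂⟩ := h.form'
  obtain ⟨x, hx, hBx, hWx, hΦx⟩ := h.indep Φ hΦ
  intro hmem
  have h1 := hx.1 _ hmem _ (homF_hom hA hB hW₁ hW₂ hd)
  unfold VanishesAt at h1 hBx hWx
  rw [eval_homF x.rep hBx hWx hd] at h1
  exact mul_ne_zero (mul_ne_zero (pow_ne_zero _ hBx) (pow_ne_zero _ hWx)) hΦx h1

/-- `Φ (e, w) = 0` only on a proper closed subset. -/
theorem exists_polyForm (h : IsPair P G A B W₁ W₂) {Φ : MvPolynomial (Fin 2) ℂ} (hΦ : Φ ≠ 0) :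
    ∃ (n : ℕ) (R : MvPolynomial (Fin (N + 1)) ℂ), R.IsHomogeneous n ∧ R ∉ P ∧ ∀ x : PN N, ¬ VanishesAt B x → ¬ VanishesAt W₂ x →
      eval ![eval x.rep A / eval x.rep B, eval x.rep W₁ / eval x.rep W₂] Φ = 0 → VanishesAt R x := by
  obtain ⟨D, hA, hB⟩ := h.form
  obtain ⟨D', hW₁, hW₂⟩ := h.form'
  refine ⟨_, homF A B W₁ W₂ Φ.totalDegree Φ, homF_hom hA hB hW₁ hW₂ le_rfl, homF_not_mem h hΦ le_rfl, fun x hBx hWx hx => ?_⟩
  unfold VanishesAt
  rw [eval_homF x.rep hBx hWx le_rfl, hx, mul_zero]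

theorem IsPair.B_notMem (h : IsPair P G A B W₁ W₂) : B ∉ P := by
  obtain ⟨D, -, hB⟩ := h.form
  obtain ⟨x, hx, hBx, -, -⟩ := h.indep 1 one_ne_zero
  exact fun hmem => hBx (hx.1 _ hmem _ hB)

theorem IsPair.W_notMem (h : IsPair P G A B W₁ W₂) : W₂ ∉ P := by
  obtain ⟨D, -, hW⟩ := h.form'
  obtain ⟨x, hx, -, hWx, -⟩ := h.indep 1 one_ne_zero
  exact fun hmem => hWx (hx.1 _ hmem _ hW)

theorem IsPair.sub_notMem (h : IsPair P G A B W₁ W₂) (c : ℂ) : A - C c * B ∉ P := by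
  obtain ⟨D, hA, hB⟩ := h.form
  have hΦ : (X 0 - C c : MvPolynomial (Fin 2) ℂ) ≠ 0 := by
    intro h0
    have h1 := congrArg (eval (fun _ => c + 1)) h0
    simp at h1
  obtain ⟨x, hx, hBx, -, hΦx⟩ := h.indep _ hΦ
  intro hmem
  have hAc : (A - C c * B).IsHomogeneous D := by
    have h1 := (isHomogeneous_C (Fin (N + 1)) c).mul hB
    rw [zero_add] at h1
    exact hA.sub h1
  have h1 := hx.1 _ hmem _ hAc
  unfold VanishesAt at h1 hBx
  apply hΦx
  rw [map_sub, map_mul, eval_C] at h1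
  rw [map_sub, eval_X, eval_C, Matrix.cons_val_zero, sub_eq_zero.1 h1, mul_div_assoc, div_self hBx, mul_one, sub_self]

/-- **The fibres of `(e, w)`**: outside a proper closed subset they are finite. -/
theorem exists_constForm [P.IsPrime] {z : Fin 2 → FunField P} (hz : IsTranscendenceBasis ℂ z) (h : IsPair P G A B W₁ W₂) :
    ∃ (n : ℕ) (R : MvPolynomial (Fin (N + 1)) ℂ), R.IsHomogeneous n ∧ R ∉ P ∧ ∀ e₀ w₀ : ℂ,
      {x : PN N | x ∈ projVar P ∧ ¬ VanishesAt B x ∧ ¬ VanishesAt W₂ x ∧ ¬ VanishesAt R x ∧ eval x.rep A / eval x.rep B = e₀ ∧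
        eval x.rep W₁ / eval x.rep W₂ = w₀}.Finite := by
  classical
  obtain ⟨D, hA, hB⟩ := h.form
  obtain ⟨D', hW₁, hW₂⟩ := h.form'
  -- a coordinate which is not zero
  obtain ⟨x₀, hx₀, -⟩ := h.indep 1 one_ne_zero
  obtain ⟨j, hj⟩ : ∃ j, (X j : MvPolynomial (Fin (N + 1)) ℂ) ∉ P := by
    by_contra hcon
    push Not at hcon
    apply x₀.rep_nonzero
    funext i
    have := hx₀.1 _ (hcon i) 1 (isHomogeneous_X ℂ i)
    unfold VanishesAt at this
    rwa [eval_X] at this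
  have hcj : coordFun P j ≠ 0 := coordFun_ne_zero_iff.2 hj
  set η : Fin (N + 1) → FunField P := fun i => ratio P i j with hη
  have hηj : η j = 1 := ratio_self hcj
  have hgen : ∀ (n : ℕ) (Q : MvPolynomial (Fin (N + 1)) ℂ), Q.IsHomogeneous n → (aeval η Q = 0 ↔ Q ∈ P) := fun n Q hQ => gen_eq_zero_iff hcj hQ
  have hBη : aeval η B ≠ 0 := fun h0 => h.B_notMem ((hgen _ _ hB).1 h0)
  have hWη : aeval η W₂ ≠ 0 := fun h0 => h.W_notMem ((hgen _ _ hW₂).1 h0)
  set y : Fin 2 → FunField P := ![aeval η A / aeval η B, aeval η W₁ / aeval η W₂] with hy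
  have hind : AlgebraicIndependent ℂ y := by
    rw [algebraicIndependent_iff]
    intro Φ hΦ
    by_contra h0
    apply homF_not_mem h h0 le_rfl
    rw [← hgen _ _ (homF_hom hA hB hW₁ hW₂ le_rfl), homF_map (aeval η) hBη hWη le_rfl, ← hy, hΦ, mul_zero]
  have hbas : IsTranscendenceBasis ℂ y := by
    refine hind.isTranscendenceBasis_of_trdeg_le_of_finite ?_
    rw [hz.cardinalMk_eq_trdeg]
  have halg := hbas.isAlgebraic
  -- the coordinates are algebraic over `ℂ (e, w)`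
  have hcoord : ∀ i : Fin (N + 1), ∃ (d m : ℕ) (c : ℕ → MvPolynomial (Fin 2) ℂ), (∀ k ≤ m, (c k).totalDegree ≤ d) ∧ c m ≠ 0 ∧
      (∃ n, (∑ k ∈ Finset.range (m + 1), homF A B W₁ W₂ d (c k) * (X i ^ k * X j ^ (m - k))).IsHomogeneous n) ∧
      (∑ k ∈ Finset.range (m + 1), homF A B W₁ W₂ d (c k) * (X i ^ k * X j ^ (m - k))) ∈ P := by
    intro i
    obtain ⟨p, hp0, hp⟩ := halg.isAlgebraic (η i)
    have hmem : ∀ a ∈ Algebra.adjoin ℂ (Set.range y), ∃ c : MvPolynomial (Fin 2) ℂ, aeval y c = a := by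
      intro a ha
      rw [Algebra.adjoin_range_eq_range_aeval] at ha
      exact ha
    have hc : ∀ k, ∃ c : MvPolynomial (Fin 2) ℂ, aeval y c = ((p.coeff k : Algebra.adjoin ℂ (Set.range y)) : FunField P) := fun k =>
      hmem _ (p.coeff k).2
    choose c hc using hc
    rw [Polynomial.aeval_eq_sum_range] at hp
    have hp' : ∑ k ∈ Finset.range (p.natDegree + 1), aeval y (c k) * η i ^ k = 0 := by
      rw [← hp]
      refine Finset.sum_congr rfl fun k _ => ?_
      rw [hc]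
      rfl
    have hdeg : ∀ k ≤ p.natDegree, (c k).totalDegree ≤ ∑ k ∈ Finset.range (p.natDegree + 1), (c k).totalDegree := fun k hk =>
      Finset.single_le_sum (f := fun k => (c k).totalDegree) (fun _ _ => Nat.zero_le _) (Finset.mem_range.2 (Nat.lt_succ_of_le hk))
    have hF : (∑ k ∈ Finset.range (p.natDegree + 1), homF A B W₁ W₂ (∑ k ∈ Finset.range (p.natDegree + 1), (c k).totalDegree) (c k) *
        (X i ^ k * X j ^ (p.natDegree - k))).IsHomogeneous (D * (∑ k ∈ Finset.range (p.natDegree + 1), (c k).totalDegree) +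
          D' * (∑ k ∈ Finset.range (p.natDegree + 1), (c k).totalDegree) + p.natDegree) := by
      refine IsHomogeneous.sum _ _ _ fun k hk => ?_
      have hk' : k ≤ p.natDegree := Nat.lt_succ_iff.1 (Finset.mem_range.1 hk)
      have h1 := (isHomogeneous_X_pow (R := ℂ) i k).mul (isHomogeneous_X_pow (R := ℂ) j (p.natDegree - k))
      rw [Nat.add_sub_cancel' hk'] at h1
      exact (homF_hom hA hB hW₁ hW₂ (hdeg k hk')).mul h1
    refine ⟨∑ k ∈ Finset.range (p.natDegree + 1), (c k).totalDegree, p.natDegree, c, hdeg, ?_, ⟨_, hF⟩, ?_⟩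
    · intro h0
      have h1 := hc p.natDegree
      rw [h0, map_zero] at h1
      have h2 : p.coeff p.natDegree = 0 := Subtype.ext h1.symm
      exact hp0 (Polynomial.leadingCoeff_eq_zero.1 h2)
    · set d := ∑ k ∈ Finset.range (p.natDegree + 1), (c k).totalDegree with hd
      rw [← hgen _ _ hF, map_sum]
      refine sum_aux (aeval η B ^ d * aeval η W₂ ^ d) _ _ _ (fun k hk => ?_) hp'
      have hk' : k ≤ p.natDegree := Nat.lt_succ_iff.1 (Finset.mem_range.1 hk)
      rw [map_mul, homF_map (aeval η) hBη hWη (hdeg k hk'), ← hy, map_mul, map_pow, map_pow, aeval_X, aeval_X, hηj, one_pow, mul_one,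
        mul_assoc]
  choose d m c hd hcm hhom hmem using hcoord
  refine ⟨_, X j * ∏ i, homF A B W₁ W₂ (d i) (c i (m i)), (isHomogeneous_X ℂ j).mul (IsHomogeneous.prod _ _ _ fun i _ =>
    homF_hom hA hB hW₁ hW₂ (hd i (m i) le_rfl)), ?_, fun e₀ w₀ => ?_⟩
  · intro hmem'
    rcases Ideal.IsPrime.mem_or_mem inferInstance hmem' with h1 | h1
    · exact hj h1
    · obtain ⟨i, -, hi⟩ := (Ideal.IsPrime.prod_mem_iff (s := Finset.univ)).1 h1
      exact homF_not_mem h (hcm i) (hd i (m i) le_rfl) hi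
  · rcases Set.eq_empty_or_nonempty {x : PN N | x ∈ projVar P ∧ ¬ VanishesAt B x ∧ ¬ VanishesAt W₂ x ∧
      ¬ VanishesAt (X j * ∏ i, homF A B W₁ W₂ (d i) (c i (m i))) x ∧ eval x.rep A / eval x.rep B = e₀ ∧ eval x.rep W₁ / eval x.rep W₂ = w₀} with hem | hnem
    · rw [hem]
      exact Set.finite_empty
    -- the polynomials
    let q : Fin (N + 1) → Polynomial ℂ := fun i => ∑ k ∈ Finset.range (m i + 1), Polynomial.C (eval ![e₀, w₀] (c i k)) * Polynomial.X ^ k
    have hq : ∀ i, q i ≠ 0 := by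
      intro i h0
      obtain ⟨x, hx, hBx, hWx, hRx, rfl, rfl⟩ := hnem
      apply hRx
      have h1 := congrArg (fun p : Polynomial ℂ => p.coeff (m i)) h0
      simp only [q, Polynomial.finsetSum_coeff, Polynomial.coeff_C_mul, Polynomial.coeff_X_pow, Polynomial.coeff_zero] at h1
      rw [Finset.sum_eq_single (m i)] at h1
      · rw [if_pos rfl, mul_one] at h1
        unfold VanishesAt at hBx hWx ⊢
        rw [map_mul, map_prod, Finset.prod_eq_zero (Finset.mem_univ i), mul_zero]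
        rw [eval_homF x.rep hBx hWx (hd i (m i) le_rfl), h1, mul_zero]
      · intro k _ hk
        rw [if_neg (Ne.symm hk), mul_zero]
      · exact fun h => absurd (Finset.mem_range.2 (Nat.lt_succ_self _)) h
    have hfin : (Set.univ.pi fun i => {t : ℂ | (q i).IsRoot t}).Finite := Set.Finite.pi fun i => Polynomial.finite_setOfPred_isRoot (hq i)
    refine Set.Finite.of_finite_image (f := fun (x : PN N) i => x.rep i / x.rep j) (hfin.subset ?_) ?_
    · rintro _ ⟨x, ⟨hx, hBx, hWx, hRx, he, hw⟩, rfl⟩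
      intro i _
      show (q i).IsRoot (x.rep i / x.rep j)
      have hxj : x.rep j ≠ 0 := by
        intro h0
        apply hRx
        unfold VanishesAt
        rw [map_mul, eval_X, h0, zero_mul]
      have hF := hx _ (hmem i) _ (hhom i).choose_spec
      unfold VanishesAt at hF hBx hWx
      rw [map_sum] at hF
      have h1 : ∀ k ∈ Finset.range (m i + 1), eval x.rep (homF A B W₁ W₂ (d i) (c i k) * (X i ^ k * X j ^ (m i - k))) =
          (eval x.rep B ^ d i * eval x.rep W₂ ^ d i * x.rep j ^ m i) * (eval ![e₀, w₀] (c i k) * (x.rep i / x.rep j) ^ k) := by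
        intro k hk
        have hk' : k ≤ m i := Nat.lt_succ_iff.1 (Finset.mem_range.1 hk)
        have e1 : x.rep j ^ m i = x.rep j ^ k * x.rep j ^ (m i - k) := by rw [← pow_add, Nat.add_sub_cancel' hk']
        rw [map_mul, eval_homF x.rep hBx hWx (hd i k hk'), he, hw, map_mul, map_pow, map_pow, eval_X, eval_X, div_pow, e1]
        field_simp
      rw [Finset.sum_congr rfl h1, ← Finset.mul_sum] at hF
      have h2 := (mul_eq_zero.1 hF).resolve_left (mul_ne_zero (mul_ne_zero (pow_ne_zero _ hBx) (pow_ne_zero _ hWx)) (pow_ne_zero _ hxj))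
      rw [Polynomial.IsRoot.def, Polynomial.eval_finsetSum]
      simp only [Polynomial.eval_mul, Polynomial.eval_C, Polynomial.eval_pow, Polynomial.eval_X]
      exact h2
    · rintro x ⟨-, -, -, hRx, -, -⟩ x' ⟨-, -, -, hRx', -, -⟩ hxx'
      have hxj : x.rep j ≠ 0 := by
        intro h0
        apply hRx
        unfold VanishesAt
        rw [map_mul, eval_X, h0, zero_mul]
      have hxj' : x'.rep j ≠ 0 := by
        intro h0
        apply hRx'
        unfold VanishesAt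
        rw [map_mul, eval_X, h0, zero_mul]
      rw [← x.mk_rep, ← x'.mk_rep, Projectivization.mk_eq_mk_iff']
      refine ⟨x.rep j / x'.rep j, ?_⟩
      funext i
      have h1 := congrFun hxx' i
      simp only at h1
      rw [Pi.smul_apply, smul_eq_mul]
      rw [div_eq_div_iff hxj hxj'] at h1
      field_simp
      linear_combination -h1

end

end Pool.Agent.H46.LR
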