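import Pool.Agent.H87.LR.LimGen
import Pool.Agent.H62.LR.Landau
import Pool.Agent.H62.EF.PrA
import Pool.Agent.H62.EF.PrLip

/-!
# LR Sc: the model of the sphere and the elementary properties of the family `Sc`
-/

set_option autoImplicit false

open Topology Filter Metric

noncomputable section

namespace Pool.Agent.H62.LR

open Pool.Agent.H36.BP (EN fs wd)
open Pool.Agent.H62.EF (MN pr pr_eq_iff continuousAt_pr norm_pr dist_pr pr_lipschitz)
open Pool.Agent.H87.LU (Gd HP Sh HDyn AgO)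

/-! ## the sphere -/

@[simp] theorem v1_zero (w : ℂ) : v1 w 0 = 1 := rfl
@[simp] theorem v1_one (w : ℂ) : v1 w 1 = w := rfl
@[simp] theorem v0_zero : v0 0 = 0 := rfl
@[simp] theorem v0_one : v0 1 = 1 := rfl

theorem kp_inj {a b : ℂ} : kp a = kp b ↔ a = b := by
  refine ⟨fun h => ?_, fun h => by rw [h]⟩
  obtain ⟨c, -, hc⟩ := (pr_eq_iff (v1_ne a) (v1_ne b)).1 h
  have h0 := congrArg (fun x : EN 1 => x 0) hc
  have h1 := congrArg (fun x : EN 1 => x 1) hc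
  simp only [PiLp.smul_apply, smul_eq_mul, v1_zero, v1_one, mul_one] at h0 h1
  rw [← h0, one_mul] at h1
  exact h1

theorem kp_ne_kinf (a : ℂ) : kp a ≠ kinf := by
  intro h
  obtain ⟨c, -, hc⟩ := (pr_eq_iff (v1_ne a) v0_ne).1 h
  have h0 := congrArg (fun x : EN 1 => x 0) hc
  simp only [PiLp.smul_apply, smul_eq_mul, v1_zero, v0_zero, mul_zero] at h0
  exact one_ne_zero h0

theorem norm_kp (w : ℂ) : ‖kp w‖ = 1 := norm_pr (v1_ne w)

theorem norm_kinf : ‖kinf‖ = 1 := norm_pr v0_ne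

theorem norm_v1_sq (w : ℂ) : ‖v1 w‖ ^ 2 = 1 + ‖w‖ ^ 2 := by
  rw [EuclideanSpace.norm_sq_eq, Fin.sum_univ_two]
  simp

theorem norm_v0_sq : ‖v0‖ ^ 2 = 1 := by
  rw [EuclideanSpace.norm_sq_eq, Fin.sum_univ_two]
  simp

theorem inner_two (x y : EN 1) : (inner ℂ x y : ℂ) = y 0 * (starRingEnd ℂ) (x 0) + y 1 * (starRingEnd ℂ) (x 1) := by
  rw [PiLp.inner_apply, Fin.sum_univ_two, RCLike.inner_apply, RCLike.inner_apply]

theorem wd_two_sq (x y : EN 1) : wd x y ^ 2 = ‖x 0 * y 1 - x 1 * y 0‖ ^ 2 := by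
  have key : ‖x‖ ^ 2 * ‖y‖ ^ 2 - ‖(inner ℂ x y : ℂ)‖ ^ 2 = ‖x 0 * y 1 - x 1 * y 0‖ ^ 2 := by
    rw [EuclideanSpace.norm_sq_eq, EuclideanSpace.norm_sq_eq, Fin.sum_univ_two, Fin.sum_univ_two, inner_two]
    simp only [← Complex.normSq_eq_norm_sq, Complex.normSq_apply]
    simp only [Complex.add_re, Complex.add_im, Complex.sub_re, Complex.sub_im, Complex.mul_re, Complex.mul_im, Complex.conj_re, Complex.conj_im]
    ring
  rw [Pool.Agent.H62.EF.wd_sq, key]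

theorem wd_two (x y : EN 1) : wd x y = ‖x 0 * y 1 - x 1 * y 0‖ :=
  (pow_left_inj₀ (Real.sqrt_nonneg _) (norm_nonneg _) two_ne_zero).1 (wd_two_sq x y)

theorem dist_kp (a b : ℂ) : dist (kp a) (kp b) = Real.sqrt 2 * (‖a - b‖ / (Real.sqrt (1 + ‖a‖ ^ 2) * Real.sqrt (1 + ‖b‖ ^ 2))) := by
  have h1 : ∀ w : ℂ, ‖v1 w‖ = Real.sqrt (1 + ‖w‖ ^ 2) := fun w => by
    rw [← norm_v1_sq, Real.sqrt_sq (norm_nonneg _)]
  unfold kp
  rw [dist_pr (v1_ne a) (v1_ne b), wd_two, h1, h1]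
  simp only [v1_zero, v1_one, one_mul, mul_one]
  rw [norm_sub_rev]

theorem dist_kp_kinf (a : ℂ) : dist (kp a) kinf = Real.sqrt 2 / Real.sqrt (1 + ‖a‖ ^ 2) := by
  have h1 : ∀ w : ℂ, ‖v1 w‖ = Real.sqrt (1 + ‖w‖ ^ 2) := fun w => by
    rw [← norm_v1_sq, Real.sqrt_sq (norm_nonneg _)]
  have h2 : ‖v0‖ = 1 := by
    have := norm_v0_sq
    nlinarith [norm_nonneg v0]
  unfold kp kinf
  rw [dist_pr (v1_ne a) v0_ne, wd_two, h1, h2]
  simp only [v1_zero, v1_one, v0_zero, v0_one, mul_one, mul_zero, sub_zero, norm_one]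
  rw [mul_one_div]

theorem kp_tendsto_kinf {α : Type*} {l : Filter α} {x : α → ℂ} : Tendsto (fun n => kp (x n)) l (𝓝 kinf) ↔ Tendsto (fun n => ‖x n‖) l atTop := by
  rw [tendsto_iff_dist_tendsto_zero]
  simp only [dist_kp_kinf]
  have h2 : (0 : ℝ) < Real.sqrt 2 := by positivity
  have h3 : ∀ t : ℝ, 0 ≤ t → t ≤ Real.sqrt (1 + t ^ 2) := fun t ht => by
    rw [Real.le_sqrt ht (by positivity)]
    linarith
  have h4 : ∀ t : ℝ, 0 ≤ t → Real.sqrt (1 + t ^ 2) ≤ 1 + t := fun t ht => by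
    rw [Real.sqrt_le_left (by positivity)]
    nlinarith
  have h5 : ∀ n, 0 < Real.sqrt (1 + ‖x n‖ ^ 2) := fun n => by positivity
  constructor
  · intro h
    have h1 : Tendsto (fun n => Real.sqrt (1 + ‖x n‖ ^ 2)) l atTop := by
      have h6 : Tendsto (fun n => Real.sqrt 2 / Real.sqrt (1 + ‖x n‖ ^ 2)) l (𝓝[>] 0) := by
        rw [tendsto_nhdsWithin_iff]
        exact ⟨h, Eventually.of_forall fun n => div_pos h2 (h5 n)⟩
      have h7 := (tendsto_inv_nhdsGT_zero.comp h6).const_mul_atTop h2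
      refine h7.congr fun n => ?_
      rw [Function.comp_apply, inv_div]
      field_simp
    have h8 : Tendsto (fun n => Real.sqrt (1 + ‖x n‖ ^ 2) + (-1)) l atTop := tendsto_atTop_add_const_right _ _ h1
    refine tendsto_atTop_mono (fun n => ?_) h8
    have := h4 ‖x n‖ (norm_nonneg _)
    linarith
  · intro h
    have h1 : Tendsto (fun n => Real.sqrt (1 + ‖x n‖ ^ 2)) l atTop := tendsto_atTop_mono (fun n => h3 _ (norm_nonneg _)) h
    exact h1.const_div_atTop _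

theorem tendsto_kp {α : Type*} {l : Filter α} {x : α → ℂ} {a : ℂ} (h : Tendsto x l (𝓝 a)) : Tendsto (fun n => kp (x n)) l (𝓝 (kp a)) :=
  (continuous_kp.tendsto a).comp h

/-- the Lipschitz estimate -/
theorem exists_lip : ∃ C : ℝ, 0 < C ∧ ∀ (X : ℂ → ℂ) (z : ℂ) (r : ℝ), 0 < r → DifferentiableOn ℂ X (ball z r) → (∀ w ∈ ball z r, X w ≠ 0 ∧ X w ≠ 1) →
    ∀ w ∈ closedBall z (r / 2), dist (kp (X z)) (kp (X w)) ≤ C / r * ‖z - w‖ := by
  obtain ⟨C, hC, hl⟩ := landau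
  refine ⟨8 * C, by positivity, fun X z r hr hd hX w hw => ?_⟩
  have hU : ball z (3 * r / 4) ⊆ ball z r := ball_subset_ball (by linarith)
  have hF : DifferentiableOn ℂ (fun z => v1 (X z)) (ball z (3 * r / 4)) := by
    have h1 : ∀ y ∈ ball z (3 * r / 4), DifferentiableAt ℂ (fun z => v1 (X z)) y := by
      intro y hy
      have h2 : DifferentiableAt ℂ X y := hd.differentiableAt (isOpen_ball.mem_nhds (hU hy))
      unfold v1
      refine differentiableAt_euclidean.2 fun i => ?_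
      fin_cases i
      · exact differentiableAt_const _
      · exact h2
    exact fun y hy => (h1 y hy).differentiableWithinAt
  have hder : ∀ y ∈ ball z (3 * r / 4), fs (v1 (X y)) (deriv (fun z => v1 (X z)) y) ≤ 4 * C / r := by
    intro y hy
    have h2 : DifferentiableAt ℂ X y := hd.differentiableAt (isOpen_ball.mem_nhds (hU hy))
    have h3 : HasDerivAt (fun z => v1 (X z)) (WithLp.toLp 2 ![0, deriv X y] : EN 1) y := by
      have h4 : HasDerivAt (fun z => (![1, X z] : Fin 2 → ℂ)) ![0, deriv X y] y := by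
        refine hasDerivAt_pi.2 fun i => ?_
        fin_cases i
        · exact hasDerivAt_const y (1 : ℂ)
        · exact h2.hasDerivAt
      exact (PiLp.continuousLinearEquiv 2 ℂ (fun _ : Fin 2 => ℂ)).symm.toContinuousLinearMap.hasFDerivAt.comp_hasDerivAt y h4
    rw [h3.deriv]
    unfold fs
    rw [wd_two, norm_v1_sq]
    have h4 : (WithLp.toLp 2 ![0, deriv X y] : EN 1) 1 = deriv X y := rfl
    have h5 : (WithLp.toLp 2 ![0, deriv X y] : EN 1) 0 = 0 := rfl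
    rw [h4, h5, v1_zero, one_mul, mul_zero, sub_zero]
    have h6 : ball y (r / 4) ⊆ ball z r := by
      refine ball_subset_ball' ?_
      rw [mem_ball] at hy
      linarith
    have h7 := hl X y (r / 4) (by positivity) (hd.mono h6) fun w hw => hX w (h6 hw)
    rw [div_le_div_iff₀ (by positivity) hr]
    nlinarith
  have hz : z ∈ ball z (3 * r / 4) := mem_ball_self (by positivity)
  have hw' : w ∈ ball z (3 * r / 4) := by
    rw [mem_closedBall] at hw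
    rw [mem_ball]
    linarith
  have h1 := pr_lipschitz isOpen_ball (convex_ball z (3 * r / 4)) hF (fun y _ => v1_ne _) hder z hz w hw'
  calc dist (kp (X z)) (kp (X w)) ≤ 2 * (4 * C / r) * ‖z - w‖ := h1
    _ = 8 * C / r * ‖z - w‖ := by ring

/-! ## the family -/

variable {p : ℝ} {B : Set ℂ} {δ W : ℝ} {𝓛 : Set (ℂ → ℂ)} {C A : Set ℂ}

theorem mem_sec {s : ℂ → MN 1} : s ∈ Sec 𝓛 ↔ s = (fun _ => kinf) ∨ s = (fun _ => kp 0) ∨ s = (fun _ => kp 1) ∨ ∃ L ∈ 𝓛, s = fun z => kp (L z) := by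
  unfold Sec
  constructor
  · rintro ((h | h | h) | ⟨L, hL, h⟩)
    · exact Or.inl h
    · exact Or.inr (Or.inl h)
    · exact Or.inr (Or.inr (Or.inl h))
    · exact Or.inr (Or.inr (Or.inr ⟨L, hL, h.symm⟩))
  · rintro (h | h | h | ⟨L, hL, h⟩)
    · exact Or.inl (Or.inl h)
    · exact Or.inl (Or.inr (Or.inl h))
    · exact Or.inl (Or.inr (Or.inr h))
    · exact Or.inr ⟨L, hL, h.symm⟩

/-- different sections are different at all points -/
theorem sec_eq (h : BaseD p B δ W 𝓛 C A) {s s' : ℂ → MN 1} (hs : s ∈ Sec 𝓛) (hs' : s' ∈ Sec 𝓛) {z : ℂ} (hz : z ∉ B) (he : s z = s' z) : s = s' := by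
  rw [mem_sec] at hs hs'
  rcases hs with rfl | rfl | rfl | ⟨L, hL, rfl⟩ <;> rcases hs' with rfl | rfl | rfl | ⟨L', hL', rfl⟩
  · rfl
  · exact absurd he.symm (kp_ne_kinf _)
  · exact absurd he.symm (kp_ne_kinf _)
  · exact absurd he.symm (kp_ne_kinf _)
  · exact absurd he (kp_ne_kinf _)
  · rfl
  · exact absurd (kp_inj.1 he) zero_ne_one
  · exact absurd (kp_inj.1 he).symm (h.L_an L' hL' z hz).2.1
  · exact absurd he (kp_ne_kinf _)
  · exact absurd (kp_inj.1 he) one_ne_zero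
  · rfl
  · exact absurd (kp_inj.1 he).symm (h.L_an L' hL' z hz).2.2
  · exact absurd he (kp_ne_kinf _)
  · exact absurd (kp_inj.1 he) (h.L_an L hL z hz).2.1
  · exact absurd (kp_inj.1 he) (h.L_an L hL z hz).2.2
  · rw [h.sub hL hL']

/-- the functions in `Tm` meet no section -/
theorem tm_ne {Ω : Set ℂ} {f : ℂ → ℂ} (hf : f ∈ Tm B 𝓛 C A Ω) {s : ℂ → MN 1} (hs : s ∈ Sec 𝓛) {z : ℂ} (hz : z ∈ Ω) (hzB : z ∉ B) :
    kp (f z) ≠ s z := by
  obtain ⟨-, h1, h2, h3⟩ := hf.2.1 z hz hzB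
  rw [mem_sec] at hs
  rcases hs with rfl | rfl | rfl | ⟨L, hL, rfl⟩
  · exact kp_ne_kinf _
  · exact fun h => h1 (kp_inj.1 h)
  · exact fun h => h2 (kp_inj.1 h)
  · exact fun h => h3 L hL (kp_inj.1 h)

/-- a member which meets a section is the section -/
theorem disj (h : BaseD p B δ W 𝓛 C A) {Ω : Set ℂ} {y : ℂ → MN 1} (hy : y ∈ Sc B 𝓛 C A Ω) {s : ℂ → MN 1} (hs : s ∈ Sec 𝓛)
    {z : ℂ} (hz : z ∈ Ω) (hzB : z ∉ B) (he : y z = s z) : AgO B Ω y s := by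
  rcases hy with ⟨s', hs', hy⟩ | ⟨f, hf, hy⟩
  · have h1 : s' = s := sec_eq h hs' hs hzB (by rw [← hy z hz hzB, he])
    rw [← h1]
    exact hy
  · exact absurd (by rw [← hy z hz hzB, he]) (tm_ne hf hs hz hzB)

theorem tm_anti {Ω Ω' : Set ℂ} (h : Ω' ⊆ Ω) : Tm B 𝓛 C A Ω ⊆ Tm B 𝓛 C A Ω' := fun _ hf =>
  ⟨fun z hz => hf.1 z (h hz), fun z hz => hf.2.1 z (h hz), fun b hb => hf.2.2 b (h hb)⟩

theorem sc_anti {Ω Ω' : Set ℂ} (h : Ω' ⊆ Ω) : Sc B 𝓛 C A Ω ⊆ Sc B 𝓛 C A Ω' := by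
  rintro y (⟨s, hs, hy⟩ | ⟨f, hf, hy⟩)
  · exact Or.inl ⟨s, hs, fun z hz => hy z (h hz)⟩
  · exact Or.inr ⟨f, tm_anti h hf, fun z hz => hy z (h hz)⟩

theorem sc_compact : IsCompact (closedBall (0 : MN 1) 1) := isCompact_closedBall _ _

theorem sc_mem {Ω : Set ℂ} {y : ℂ → MN 1} (hy : y ∈ Sc B 𝓛 C A Ω) {z : ℂ} (hz : z ∈ Ω) (hzB : z ∉ B) : y z ∈ closedBall (0 : MN 1) 1 := by
  rw [mem_closedBall_zero_iff]
  rcases hy with ⟨s, hs, hy⟩ | ⟨f, hf, hy⟩
  · rw [hy z hz hzB]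
    rw [mem_sec] at hs
    rcases hs with rfl | rfl | rfl | ⟨L, hL, rfl⟩
    · exact norm_kinf.le
    · exact (norm_kp _).le
    · exact (norm_kp _).le
    · exact (norm_kp _).le
  · rw [hy z hz hzB]
    exact (norm_kp _).le

/-- a point of `ball z δ'`, `z ∈ Gd B δ'`, is not in `B` -/
theorem not_mem_of_gd {δ' : ℝ} {z w : ℂ} (hz : z ∈ Gd B δ') (hw : w ∈ ball z δ') : w ∉ B := by
  intro h
  have h1 := hz w h
  rw [mem_ball, dist_comm, dist_eq_norm] at hw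
  linarith

theorem sc_lip (h : BaseD p B δ W 𝓛 C A) (δ' : ℝ) (hδ' : 0 < δ') : ∃ L : ℝ, 0 < L ∧ ∀ Ω : Set ℂ, ∀ y ∈ Sc B 𝓛 C A Ω, ∀ z ∈ Gd B δ',
    closedBall z δ' ⊆ Ω → ∀ w ∈ closedBall z (δ' / 2), dist (y z) (y w) ≤ L * ‖z - w‖ := by
  obtain ⟨K, hK, hl⟩ := exists_lip
  refine ⟨K / δ', by positivity, fun Ω y hy z hz hzΩ w hw => ?_⟩
  have hsub : ∀ v ∈ ball z δ', v ∈ Ω ∧ v ∉ B := fun v hv => ⟨hzΩ (ball_subset_closedBall hv), not_mem_of_gd hz hv⟩
  have hzm : z ∈ ball z δ' := mem_ball_self hδ'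
  have hwm : w ∈ ball z δ' := closedBall_subset_ball (by linarith) hw
  have hpos : 0 ≤ K / δ' * ‖z - w‖ := by positivity
  rcases hy with ⟨s, hs, hy⟩ | ⟨f, hf, hy⟩
  · rw [hy z (hsub z hzm).1 (hsub z hzm).2, hy w (hsub w hwm).1 (hsub w hwm).2]
    rw [mem_sec] at hs
    rcases hs with rfl | rfl | rfl | ⟨L, hL, rfl⟩
    · rw [dist_self]
      exact hpos
    · rw [dist_self]
      exact hpos
    · rw [dist_self]
      exact hpos
    · exact hl L z δ' hδ' (fun v hv => (h.L_an L hL v (hsub v hv).2).1.differentiableAt.differentiableWithinAt)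
        (fun v hv => (h.L_an L hL v (hsub v hv).2).2) w hw
  · rw [hy z (hsub z hzm).1 (hsub z hzm).2, hy w (hsub w hwm).1 (hsub w hwm).2]
    exact hl f z δ' hδ' (fun v hv => (hf.2.1 v (hsub v hv).1 (hsub v hv).2).1.differentiableAt.differentiableWithinAt)
      (fun v hv => ⟨(hf.2.1 v (hsub v hv).1 (hsub v hv).2).2.1, (hf.2.1 v (hsub v hv).1 (hsub v hv).2).2.2.1⟩) w hw

theorem B_add (h : BaseD p B δ W 𝓛 C A) {b : ℂ} (l : ℤ) : b + p * l * Complex.I ∈ B ↔ b ∈ B := by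
  constructor
  · intro hb
    have h1 := h.B_inv _ hb (-l)
    have h2 : b + p * l * Complex.I + p * ((-l : ℤ) : ℂ) * Complex.I = b := by
      push_cast
      ring
    rwa [h2] at h1
  · exact fun hb => h.B_inv b hb l

theorem C_add (h : BaseD p B δ W 𝓛 C A) {b : ℂ} (l : ℤ) : b + p * l * Complex.I ∈ C ↔ b ∈ C := by
  constructor
  · intro hb
    have h1 := h.C_inv _ hb (-l)
    have h2 : b + p * l * Complex.I + p * ((-l : ℤ) : ℂ) * Complex.I = b := by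
      push_cast
      ring
    rwa [h2] at h1
  · exact fun hb => h.C_inv b hb l

theorem L_add (h : BaseD p B δ W 𝓛 C A) {L : ℂ → ℂ} (hL : L ∈ 𝓛) (l : ℤ) (z : ℂ) : L (z + p * l * Complex.I) = L z := by
  have hper := h.L_per L hL
  induction l with
  | zero => simp
  | succ k ih =>
    have h1 := hper (z + p * (k : ℤ) * Complex.I)
    rw [ih] at h1
    rw [← h1]
    congr 1
    push_cast
    ring
  | pred k ih =>
    have h1 := hper (z + p * ((-(k : ℤ) - 1 : ℤ) : ℂ) * Complex.I)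
    have h2 : z + p * ((-(k : ℤ) - 1 : ℤ) : ℂ) * Complex.I + p * Complex.I = z + p * ((-(k : ℤ) : ℤ) : ℂ) * Complex.I := by
      push_cast
      ring
    rw [h2, ih] at h1
    exact h1.symm

theorem sec_add (h : BaseD p B δ W 𝓛 C A) {s : ℂ → MN 1} (hs : s ∈ Sec 𝓛) (l : ℤ) (z : ℂ) : s (z + p * l * Complex.I) = s z := by
  rw [mem_sec] at hs
  rcases hs with rfl | rfl | rfl | ⟨L, hL, rfl⟩
  · rfl
  · rfl
  · rfl
  · show kp (L (z + p * l * Complex.I)) = kp (L z)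
    rw [L_add h hL]

/-- translation of a meromorphic function -/
theorem mer_add {f : ℂ → ℂ} {z c : ℂ} (hf : MeromorphicAt f (z + c)) : MeromorphicAt (fun z => f (z + c)) z := by
  have h1 : AnalyticAt ℂ (fun z : ℂ => z + c) z := analyticAt_id.add analyticAt_const
  exact MeromorphicAt.comp_analyticAt (f := f) (g := fun z : ℂ => z + c) (by simpa using hf) h1

theorem an_add {f : ℂ → ℂ} {z c : ℂ} (hf : AnalyticAt ℂ f (z + c)) : AnalyticAt ℂ (fun z => f (z + c)) z := by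
  have h1 : AnalyticAt ℂ (fun z : ℂ => z + c) z := analyticAt_id.add analyticAt_const
  exact AnalyticAt.comp (g := f) (f := fun z : ℂ => z + c) (by simpa using hf) h1

theorem tm_trans (h : BaseD p B δ W 𝓛 C A) {Ω : Set ℂ} {f : ℂ → ℂ} (hf : f ∈ Tm B 𝓛 C A Ω) (l : ℤ) :
    (fun z => f (z + p * l * Complex.I)) ∈ Tm B 𝓛 C A (Sh p l Ω) := by
  refine ⟨fun z hz => mer_add (hf.1 _ hz), fun z hz hzB => ?_, fun b hb hbC a ha => ?_⟩
  · obtain ⟨h1, h2, h3, h4⟩ := hf.2.1 _ hz fun h5 => hzB ((B_add h l).1 h5)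
    exact ⟨an_add h1, h2, h3, fun L hL => by
      have := h4 L hL
      rwa [L_add h hL] at this⟩
  · refine hf.2.2 _ hb ((C_add h l).2 hbC) a ?_
    have h1 : Tendsto (fun z : ℂ => z - p * l * Complex.I) (𝓝[≠] (b + p * l * Complex.I)) (𝓝[≠] b) := by
      rw [tendsto_nhdsWithin_iff]
      constructor
      · have h2 : Tendsto (fun z : ℂ => z - p * l * Complex.I) (𝓝 (b + p * l * Complex.I)) (𝓝 (b + p * l * Complex.I - p * l * Complex.I)) :=
          (continuous_id.sub continuous_const).tendsto _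
        rw [add_sub_cancel_right] at h2
        exact h2.mono_left nhdsWithin_le_nhds
      · filter_upwards [self_mem_nhdsWithin] with z hz h3
        apply hz
        have h4 : z - p * l * Complex.I = b := h3
        rw [← h4, sub_add_cancel]
        exact Set.mem_singleton _
    refine (ha.comp h1).congr fun z => ?_
    simp only [Function.comp_apply, sub_add_cancel]

theorem sc_trans (h : BaseD p B δ W 𝓛 C A) {Ω : Set ℂ} {y : ℂ → MN 1} (hy : y ∈ Sc B 𝓛 C A Ω) (l : ℤ) :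
    (fun z => y (z + p * l * Complex.I)) ∈ Sc B 𝓛 C A (Sh p l Ω) := by
  rcases hy with ⟨s, hs, hy⟩ | ⟨f, hf, hy⟩
  · refine Or.inl ⟨s, hs, fun z hz hzB => ?_⟩
    show y (z + p * l * Complex.I) = s z
    rw [hy _ hz fun h5 => hzB ((B_add h l).1 h5), sec_add h hs]
  · exact Or.inr ⟨_, tm_trans h hf l, fun z hz hzB => hy _ hz fun h5 => hzB ((B_add h l).1 h5)⟩

/-- `B` is closed and discrete -/
theorem B_ev (h : BaseD p B δ W 𝓛 C A) {z : ℂ} (hz : z ∉ B) : ∀ᶠ w in 𝓝 z, w ∉ B := by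
  have hδ := h.δ_pos
  by_cases h1 : ∃ b ∈ B, ‖z - b‖ < 4 * δ
  · obtain ⟨b, hb, hb2⟩ := h1
    have hzb : z ≠ b := fun h2 => hz (h2 ▸ hb)
    have h2 : ∀ᶠ w in 𝓝 z, w ≠ b := (isOpen_compl_singleton (x := b)).mem_nhds hzb
    have h3 : ∀ᶠ w in 𝓝 z, ‖w - b‖ < 4 * δ := by
      have : Continuous fun w : ℂ => ‖w - b‖ := by fun_prop
      exact this.continuousAt.eventually_lt continuousAt_const hb2
    filter_upwards [h2, h3] with w hw1 hw2 hwB
    have h4 := h.B_sep w hwB b hb hw1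
    linarith
  · push Not at h1
    filter_upwards [ball_mem_nhds z (show (0 : ℝ) < 4 * δ by linarith)] with w hw hwB
    have h4 := h1 w hwB
    rw [mem_ball, dist_comm, dist_eq_norm] at hw
    linarith

theorem B_ev' (h : BaseD p B δ W 𝓛 C A) (z : ℂ) : ∀ᶠ w in 𝓝[≠] z, w ∉ B := by
  by_cases hz : z ∈ B
  · have hδ := h.δ_pos
    filter_upwards [nhdsWithin_le_nhds (ball_mem_nhds z (show (0 : ℝ) < 8 * δ by linarith)), self_mem_nhdsWithin] with w hw hne hwB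
    have h4 := h.B_sep w hwB z hz hne
    rw [mem_ball, dist_eq_norm] at hw
    linarith
  · exact nhdsWithin_le_nhds (B_ev h hz)

/-- identity theorem for meromorphic functions -/
theorem mer_identity {Ω : Set ℂ} (hΩ : IsPreconnected Ω) {f g : ℂ → ℂ} (hf : ∀ z ∈ Ω, MeromorphicAt f z) (hg : ∀ z ∈ Ω, MeromorphicAt g z)
    {z₀ : ℂ} (hz₀ : z₀ ∈ Ω) (h : ∃ᶠ z in 𝓝[≠] z₀, f z = g z) : ∀ z ∈ Ω, ∀ᶠ w in 𝓝[≠] z, f w = g w := by
  have hm : MeromorphicOn (f - g) Ω := fun z hz => (hf z hz).sub (hg z hz)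
  intro z hz
  by_contra hcon
  have h1 : meromorphicOrderAt (f - g) z ≠ ⊤ := by
    intro h2
    rw [meromorphicOrderAt_eq_top_iff] at h2
    exact hcon (h2.mono fun w hw => sub_eq_zero.1 hw)
  have h2 := hm.meromorphicOrderAt_ne_top_of_isPreconnected hΩ hz hz₀ h1
  have h3 := (meromorphicOrderAt_ne_top_iff_eventually_ne_zero (hm z₀ hz₀)).1 h2
  exact h (h3.mono fun w hw h4 => hw (sub_eq_zero.2 h4))

theorem sc_uniq (h : BaseD p B δ W 𝓛 C A) {Ω : Set ℂ} (hΩo : IsOpen Ω) (hΩ : IsPreconnected Ω) {f g : ℂ → MN 1} (hf : f ∈ Sc B 𝓛 C A Ω)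
    (hg : g ∈ Sc B 𝓛 C A Ω) {z₀ : ℂ} (hz₀ : z₀ ∈ Ω) (hfg : ∃ᶠ z in 𝓝[≠] z₀, f z = g z) :
    ∀ z ∈ Ω, z ∉ B → f z = g z := by
  have hev : ∀ᶠ z in 𝓝[≠] z₀, z ∈ Ω := nhdsWithin_le_nhds (hΩo.mem_nhds hz₀)
  -- a point where both are given and equal
  obtain ⟨z₁, he, hz₁, hz₁B⟩ := (hfg.and_eventually (hev.and (B_ev' h z₀))).exists
  rcases hg with ⟨s, hs, hgs⟩ | ⟨X, hX, hgX⟩
  · rw [hgs z₁ hz₁ hz₁B] at he
    intro z hz hzB
    rw [disj h hf hs hz₁ hz₁B he z hz hzB, hgs z hz hzB]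
  · rcases hf with ⟨s, hs, hfs⟩ | ⟨Y, hY, hfY⟩
    · rw [hfs z₁ hz₁ hz₁B, hgX z₁ hz₁ hz₁B] at he
      exact absurd he.symm (tm_ne hX hs hz₁ hz₁B)
    · have h1 : ∃ᶠ z in 𝓝[≠] z₀, Y z = X z := by
        refine (hfg.and_eventually (hev.and (B_ev' h z₀))).mono ?_
        rintro z ⟨h2, h3, h4⟩
        rw [hfY z h3 h4, hgX z h3 h4, kp_inj] at h2
        exact h2
      intro z hz hzB
      rw [hfY z hz hzB, hgX z hz hzB]
      have h2 := mer_identity hΩ hY.1 hX.1 hz₀ h1 z hz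
      have h3 : Tendsto Y (𝓝[≠] z) (𝓝 (Y z)) := (hY.2.1 z hz hzB).1.continuousAt.tendsto.mono_left nhdsWithin_le_nhds
      have h4 : Tendsto X (𝓝[≠] z) (𝓝 (X z)) := (hX.2.1 z hz hzB).1.continuousAt.tendsto.mono_left nhdsWithin_le_nhds
      rw [tendsto_nhds_unique (h3.congr' h2) h4]

end Pool.Agent.H62.LR
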