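import Pool.Agent.H46.LR.Defs
import Pool.Agent.H36.BP.MainA
import Pool.Agent.H36.LB.Cv

/-!
# LR Val: the values of rational functions along holomorphic curves

* `qt A B x`: the value of `A / B` at `x`.
* `HasValue.tendsto`, `HasValue.tendsto_cobounded`: if the map `[A : B]` has the value `[s : t]` at `F z₀` then `A (F z) / B (F z)` tends to `s / t`.
* `qt_meromorphic`.
* `qt_unif`: convergence of the quotients.
-/

set_option autoImplicit false

open Topology Filter MvPolynomial Metric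

noncomputable section

namespace Pool.Agent.H46.LR

open Pool.Agent.H17 (PN VanishesAt HolomorphicInto vanishesAt_mk_iff)
open Pool.Agent.H17BP (rep_mk_fin eval_smul_form)
open Pool.Agent.H17EF (projVar)
open Pool.Agent.H62.FC (Homog)
open Pool.Agent.H62.SA (locVar)
open Pool.Agent.H36.LB (ConvPN tlu_comp)

variable {N : ℕ}

/-- the value of `A / B` at `x` -/
def qt (A B : MvPolynomial (Fin (N + 1)) ℂ) (x : PN N) : ℂ := eval x.rep A / eval x.rep B

variable {P : Ideal (MvPolynomial (Fin (N + 1)) ℂ)} {A B : MvPolynomial (Fin (N + 1)) ℂ} {D : ℕ}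

theorem qt_mk (hA : A.IsHomogeneous D) (hB : B.IsHomogeneous D) {x : Fin (N + 1) → ℂ} (h : x ≠ 0) :
    qt A B (Projectivization.mk ℂ x h) = eval x A / eval x B := by
  obtain ⟨a, ha, hx⟩ := rep_mk_fin h
  unfold qt
  rw [hx, eval_smul_form hA, eval_smul_form hB, mul_div_mul_left _ _ (pow_ne_zero _ ha)]

theorem HasValue.of_qt (hA : A.IsHomogeneous D) (hB : B.IsHomogeneous D) {x : PN N} (hx : ¬ VanishesAt B x) : HasValue P A B x (qt A B x) 1 := by
  refine ⟨D, A, B, hA, hB, ?_, fun h => hx h.2, ?_⟩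
  · rw [mul_comm, sub_self]
    exact P.zero_mem
  · unfold qt
    unfold VanishesAt at hx
    field_simp

/-- the value is unique -/
theorem HasValue.unique [P.IsPrime] (hB : B ∉ P) {x : PN N} (hx : x ∈ projVar P) {v v' : ℂ} (h : HasValue P A B x v 1)
    (h' : HasValue P A B x v' 1) : v = v' := by
  obtain ⟨d, a, b, ha, hb, hab, hne, hv⟩ := h
  obtain ⟨d', a', b', ha', hb', hab', hne', hv'⟩ := h'
  unfold VanishesAt at hne hne'
  have hmem : a * b' - a' * b ∈ P := by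
    have h1 : (a * b' - a' * b) * B ∈ P := by
      have h2 := P.sub_mem (P.mul_mem_left b' hab) (P.mul_mem_left b hab')
      have h3 : b' * (a * B - b * A) - b * (a' * B - b' * A) = (a * b' - a' * b) * B := by ring
      rwa [h3] at h2
    exact (Ideal.IsPrime.mem_or_mem inferInstance h1).resolve_right hB
  have hh : (a * b' - a' * b).IsHomogeneous (d + d') := by
    have h1 := ha.mul hb'
    have h2 := ha'.mul hb
    rw [add_comm d' d] at h2
    exact h1.sub h2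
  have h1 := hx _ hmem _ hh
  unfold VanishesAt at h1
  rw [map_sub, map_mul, map_mul] at h1
  rw [mul_one] at hv hv'
  have hbx : eval x.rep b ≠ 0 := fun h0 => hne ⟨by rw [hv, h0, zero_mul], h0⟩
  have hbx' : eval x.rep b' ≠ 0 := fun h0 => hne' ⟨by rw [hv', h0, zero_mul], h0⟩
  rw [hv, hv'] at h1
  have h2 : eval x.rep b * eval x.rep b' * (v - v') = 0 := by linear_combination h1
  have h3 := (mul_eq_zero.1 h2).resolve_left (mul_ne_zero hbx hbx')
  exact sub_eq_zero.1 h3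

theorem analyticAt_form {φ : ℂ → Fin (N + 1) → ℂ} {z : ℂ} (hφ : AnalyticAt ℂ φ z) (Q : MvPolynomial (Fin (N + 1)) ℂ) :
    AnalyticAt ℂ (fun w => eval (φ w) Q) z := by
  have h : ∀ i : Fin (N + 1), AnalyticAt ℂ (fun q => φ q i) z := fun i => analyticAt_pi_iff.1 hφ i
  have := AnalyticAt.aeval_mvPolynomial (𝕜 := ℂ) h Q
  simpa [MvPolynomial.aeval_eq_eval] using this

/-- the quotient along a curve is meromorphic -/
theorem qt_meromorphic (hA : A.IsHomogeneous D) (hB : B.IsHomogeneous D) {F : ℂ → PN N} {z₀ : ℂ} (hF : HolomorphicInto F {z₀}) :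
    MeromorphicAt (fun z => qt A B (F z)) z₀ := by
  obtain ⟨φ, hφ, he⟩ := hF z₀ rfl
  have h1 : MeromorphicAt (fun z => eval (φ z) A / eval (φ z) B) z₀ := (analyticAt_form hφ A).meromorphicAt.div (analyticAt_form hφ B).meromorphicAt
  refine h1.congr ?_
  filter_upwards [nhdsWithin_le_nhds he] with z hz
  obtain ⟨h2, h3⟩ := hz
  rw [h3, qt_mk hA hB h2]

/-- what `HasValue` says along a curve -/
theorem HasValue.local {F : ℂ → PN N} {z₀ : ℂ} (hF : HolomorphicInto F {z₀}) (hU : ∀ᶠ z in 𝓝 z₀, F z ∈ projVar P) (hA : A.IsHomogeneous D)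
    (hB : B.IsHomogeneous D) (hne : ∃ᶠ z in 𝓝[≠] z₀, ¬ VanishesAt B (F z)) {s t : ℂ} (h : HasValue P A B (F z₀) s t) :
    ∃ α β : ℂ → ℂ, AnalyticAt ℂ α z₀ ∧ AnalyticAt ℂ β z₀ ∧ ¬ (α z₀ = 0 ∧ β z₀ = 0) ∧ α z₀ * t = β z₀ * s ∧
      ∀ᶠ z in 𝓝[≠] z₀, (β z = 0 → α z = 0) ∧ (β z ≠ 0 → qt A B (F z) = α z / β z) := by
  obtain ⟨φ, hφ, he⟩ := hF z₀ rfl
  obtain ⟨d, a, b, ha, hb, hab, hnab, hst⟩ := h
  obtain ⟨h0, hF0⟩ := he.self_of_nhds
  obtain ⟨κ, hκ, hrep⟩ := rep_mk_fin h0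
  have hBz : ∀ᶠ z in 𝓝[≠] z₀, eval (φ z) B ≠ 0 := by
    rcases (analyticAt_form hφ B).eventually_eq_zero_or_eventually_ne_zero with h1 | h1
    · exfalso
      apply hne
      filter_upwards [nhdsWithin_le_nhds h1, nhdsWithin_le_nhds he] with z h2 h3
      obtain ⟨h4, h5⟩ := h3
      rw [not_not, h5, vanishesAt_mk_iff hB _ h4]
      exact h2
    · exact h1
  refine ⟨fun z => eval (φ z) a, fun z => eval (φ z) b, analyticAt_form hφ a, analyticAt_form hφ b, ?_, ?_, ?_⟩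
  · rintro ⟨h1, h2⟩
    apply hnab
    rw [hF0, vanishesAt_mk_iff ha _ h0, vanishesAt_mk_iff hb _ h0]
    exact ⟨h1, h2⟩
  · rw [hF0, hrep, eval_smul_form ha, eval_smul_form hb] at hst
    have h1 : κ ^ d * (eval (φ z₀) a * t) = κ ^ d * (eval (φ z₀) b * s) := by linear_combination hst
    exact mul_left_cancel₀ (pow_ne_zero _ hκ) h1
  · filter_upwards [hBz, nhdsWithin_le_nhds he, nhdsWithin_le_nhds hU] with z h1 h2 h3
    obtain ⟨h5, h6⟩ := h2
    have hh : (a * B - b * A).IsHomogeneous (d + D) := (ha.mul hB).sub (hb.mul hA)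
    have h7 := h3 _ hab _ hh
    rw [h6, vanishesAt_mk_iff hh _ h5, map_sub, map_mul, map_mul] at h7
    refine ⟨fun h8 => ?_, fun h4 => ?_⟩
    · rw [h8, zero_mul, sub_zero] at h7
      exact (mul_eq_zero.1 h7).resolve_right h1
    · rw [h6, qt_mk hA hB h5, div_eq_div_iff h1 h4]
      linear_combination -h7

theorem HasValue.tendsto {F : ℂ → PN N} {z₀ : ℂ} (hF : HolomorphicInto F {z₀}) (hU : ∀ᶠ z in 𝓝 z₀, F z ∈ projVar P) (hA : A.IsHomogeneous D)
    (hB : B.IsHomogeneous D) (hne : ∃ᶠ z in 𝓝[≠] z₀, ¬ VanishesAt B (F z)) {s t : ℂ} (h : HasValue P A B (F z₀) s t) (ht : t ≠ 0) :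
    Tendsto (fun z => qt A B (F z)) (𝓝[≠] z₀) (𝓝 (s / t)) := by
  obtain ⟨α, β, hα, hβ, hne', hst, hq⟩ := h.local hF hU hA hB hne
  have hβ0 : β z₀ ≠ 0 := by
    intro h0
    apply hne'
    rw [h0, zero_mul] at hst
    exact ⟨(mul_eq_zero.1 hst).resolve_right ht, h0⟩
  have h1 : Tendsto (fun z => α z / β z) (𝓝[≠] z₀) (𝓝 (s / t)) := by
    have h2 := (hα.div hβ hβ0).continuousAt.tendsto.mono_left (nhdsWithin_le_nhds (s := {z₀}ᶜ))
    have h3 : (α / β) z₀ = s / t := by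
      rw [Pi.div_apply, div_eq_div_iff hβ0 ht, hst, mul_comm]
    rwa [h3] at h2
  refine h1.congr' ?_
  filter_upwards [hq, nhdsWithin_le_nhds (hβ.continuousAt.eventually_ne hβ0)] with z h2 h3
  exact (h2.2 h3).symm

theorem HasValue.tendsto_cobounded {F : ℂ → PN N} {z₀ : ℂ} (hF : HolomorphicInto F {z₀}) (hU : ∀ᶠ z in 𝓝 z₀, F z ∈ projVar P)
    (hA : A.IsHomogeneous D) (hB : B.IsHomogeneous D) (hne : ∃ᶠ z in 𝓝[≠] z₀, ¬ VanishesAt B (F z)) {s : ℂ} (hs : s ≠ 0)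
    (h : HasValue P A B (F z₀) s 0) : Tendsto (fun z => qt A B (F z)) (𝓝[≠] z₀) (Bornology.cobounded ℂ) := by
  obtain ⟨α, β, hα, hβ, hne', hst, hq⟩ := h.local hF hU hA hB hne
  have hβ0 : β z₀ = 0 := by
    rw [mul_zero] at hst
    exact (mul_eq_zero.1 hst.symm).resolve_right hs
  have hα0 : α z₀ ≠ 0 := fun h0 => hne' ⟨h0, hβ0⟩
  have hαz : ∀ᶠ z in 𝓝[≠] z₀, α z ≠ 0 := nhdsWithin_le_nhds (hα.continuousAt.eventually_ne hα0)
  have h1 : Tendsto (fun z => β z / α z) (𝓝[≠] z₀) (𝓝[≠] 0) := by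
    rw [tendsto_nhdsWithin_iff]
    constructor
    · have h2 := (hβ.div hα hα0).continuousAt.tendsto.mono_left (nhdsWithin_le_nhds (s := {z₀}ᶜ))
      have h3 : (β / α) z₀ = 0 := by rw [Pi.div_apply, hβ0, zero_div]
      rwa [h3] at h2
    · filter_upwards [hq, hαz] with z h2 h3
      exact div_ne_zero (fun h4 => h3 (h2.1 h4)) h3
  refine (Filter.tendsto_inv₀_nhdsNE_zero.comp h1).congr' ?_
  filter_upwards [hq, hαz] with z h2 h3
  rw [h2.2 fun h4 => h3 (h2.1 h4), Function.comp_apply, inv_div]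

/-- convergence of the quotients -/
theorem qt_unif (hA : A.IsHomogeneous D) (hB : B.IsHomogeneous D) {l : Filter ℕ} {F : ℕ → ℂ → PN N} {f : ℂ → PN N} {z₀ : ℂ} (h : ConvPN l F f z₀)
    (hz₀ : ¬ VanishesAt B (f z₀)) : ∃ r > 0, DifferentiableOn ℂ (fun z => qt A B (f z)) (ball z₀ r) ∧ (∀ z ∈ ball z₀ r, ¬ VanishesAt B (f z)) ∧
      (∀ᶠ n in l, ∀ z ∈ ball z₀ r, ¬ VanishesAt B (F n z)) ∧
      ∀ ε : ℝ, 0 < ε → ∀ᶠ n in l, ∀ z ∈ ball z₀ r, ‖qt A B (F n z) - qt A B (f z)‖ < ε := by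
  obtain ⟨s, Φ, Φ₀, hs, hΦ, hΦ₀, hf, hlim⟩ := h
  obtain ⟨h0, hf0⟩ := hf z₀ (mem_ball_self hs)
  have hB0 : eval (Φ₀ z₀) B ≠ 0 := by
    intro h1
    apply hz₀
    rw [hf0, vanishesAt_mk_iff hB _ h0]
    exact h1
  have hcB : Continuous fun x : Fin (N + 1) → ℂ => eval x B := MvPolynomial.continuous_eval B
  have hcA : Continuous fun x : Fin (N + 1) → ℂ => eval x A := MvPolynomial.continuous_eval A
  have hcont : ContinuousAt Φ₀ z₀ := hΦ₀.continuousOn.continuousAt (ball_mem_nhds z₀ hs)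
  have h1 : ∀ᶠ z in 𝓝 z₀, ‖eval (Φ₀ z₀) B‖ / 2 < ‖eval (Φ₀ z) B‖ :=
    (hcB.continuousAt.comp hcont).norm.eventually_const_lt (show ‖eval (Φ₀ z₀) B‖ / 2 < ‖eval (Φ₀ z₀) B‖ by
      have := norm_pos_iff.2 hB0
      linarith)
  obtain ⟨r₁, hr₁, hb⟩ := Metric.eventually_nhds_iff_ball.1 (h1.and (ball_mem_nhds z₀ hs))
  have hr : 0 < r₁ / 2 := by positivity
  have hsub : closedBall z₀ (r₁ / 2) ⊆ ball z₀ r₁ := closedBall_subset_ball (by linarith)
  have hsub' : ball z₀ r₁ ⊆ ball z₀ s := fun z hz => (hb z hz).2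
  have hne : ∀ z ∈ ball z₀ r₁, eval (Φ₀ z) B ≠ 0 := fun z hz h2 => by
    have h3 := (hb z hz).1
    rw [h2, norm_zero] at h3
    have := norm_nonneg (eval (Φ₀ z₀) B)
    linarith
  have hlimB : TendstoLocallyUniformlyOn (fun n z => eval (Φ n z) B) (fun z => eval (Φ₀ z) B) l (ball z₀ r₁) :=
    tlu_comp (hlim.mono hsub') (hΦ₀.continuousOn.mono hsub') fun x _ => hcB.continuousAt
  have hlimQ : TendstoLocallyUniformlyOn (fun n z => eval (Φ n z) A / eval (Φ n z) B) (fun z => eval (Φ₀ z) A / eval (Φ₀ z) B) l (ball z₀ r₁) :=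
    tlu_comp (p := fun x : Fin (N + 1) → ℂ => eval x A / eval x B) (hlim.mono hsub') (hΦ₀.continuousOn.mono hsub') fun x hx =>
      hcA.continuousAt.div hcB.continuousAt (hne x hx)
  have hKB := Metric.tendstoUniformlyOn_iff.1 ((tendstoLocallyUniformlyOn_iff_tendstoUniformlyOn_of_compact (isCompact_closedBall z₀ (r₁ / 2))).1
    (hlimB.mono hsub)) (‖eval (Φ₀ z₀) B‖ / 2) (by have := norm_pos_iff.2 hB0; positivity)
  have hKQ := Metric.tendstoUniformlyOn_iff.1 ((tendstoLocallyUniformlyOn_iff_tendstoUniformlyOn_of_compact (isCompact_closedBall z₀ (r₁ / 2))).1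
    (hlimQ.mono hsub))
  have hval : ∀ z ∈ ball z₀ (r₁ / 2), qt A B (f z) = eval (Φ₀ z) A / eval (Φ₀ z) B := fun z hz => by
    obtain ⟨h2, h3⟩ := hf z (hsub' (hsub (ball_subset_closedBall hz)))
    rw [h3, qt_mk hA hB h2]
  refine ⟨r₁ / 2, hr, ?_, fun z hz => ?_, ?_, fun ε hε => ?_⟩
  · refine DifferentiableOn.congr (f := fun z => eval (Φ₀ z) A / eval (Φ₀ z) B) (fun z hz => ?_) hval
    have hz' := hsub (ball_subset_closedBall hz)
    have h2 : AnalyticAt ℂ Φ₀ z := hΦ₀.analyticAt (isOpen_ball.mem_nhds (hsub' hz'))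
    exact ((analyticAt_form h2 A).div (analyticAt_form h2 B) (hne z hz')).differentiableAt.differentiableWithinAt
  · have hz' := hsub (ball_subset_closedBall hz)
    obtain ⟨h2, h3⟩ := hf z (hsub' hz')
    rw [h3, vanishesAt_mk_iff hB _ h2]
    exact hne z hz'
  · filter_upwards [hKB, hΦ] with n h2 h3 z hz
    have hz' := hsub (ball_subset_closedBall hz)
    obtain ⟨h4, h5⟩ := h3.2 z (hsub' hz')
    rw [h5, vanishesAt_mk_iff hB _ h4]
    intro h6
    have h7 := h2 z (ball_subset_closedBall hz)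
    rw [h6, dist_zero_right] at h7
    linarith [(hb z hz').1]
  · filter_upwards [hKQ ε hε, hΦ] with n h2 h3 z hz
    have hz' := hsub (ball_subset_closedBall hz)
    obtain ⟨h4, h5⟩ := h3.2 z (hsub' hz')
    have h7 := h2 z (ball_subset_closedBall hz)
    rw [dist_eq_norm, ← hval z hz] at h7
    rw [h5, qt_mk hA hB h4, norm_sub_rev]
    exact h7

end Pool.Agent.H46.LR
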