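import Pool.Agent.H46.LR.Alg
import Pool.Agent.H46.LR.Val
import Pool.Agent.H4.LU.Defs

/-!
# LR Unit: the invertible function `e`

* `eV`: the values of `e = A / B`.
* `isRegularInto`, `holUnit`: the input for `exists_phases` (helper13).
-/

set_option autoImplicit false

open Topology Filter MvPolynomial Metric

noncomputable section

namespace Pool.Agent.H46.LR

open Pool.Agent.H17 (PN VanishesAt HolomorphicInto vanishesAt_mk_iff)
open Pool.Agent.H17BP (rep_mk_fin eval_smul_form)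
open Pool.Agent.H17EF (projVar)
open Pool.Agent.H62.FC (Homog)
open Pool.Agent.H62.SA (locVar)
open Pool.Agent.H7.Bir (vals)
open Pool.Agent.H4.LU (IsRegularInto)

variable {N : ℕ}

/-- the value of the regular function `A / B` at `x` -/
def eV (P : Ideal (MvPolynomial (Fin (N + 1)) ℂ)) (A B : MvPolynomial (Fin (N + 1)) ℂ) (x : PN N) : ℂ := by
  classical exact if h : ∃ v, HasValue P A B x v 1 then h.choose else 0

variable {P : Ideal (MvPolynomial (Fin (N + 1)) ℂ)} {s : ℕ} {G : Fin s → MvPolynomial (Fin (N + 1)) ℂ} {A B W₁ W₂ : MvPolynomial (Fin (N + 1)) ℂ}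

theorem locVar_sub : locVar P G ⊆ projVar P := fun _ hx => hx.1

theorem eV_spec {x : PN N} {v : ℂ} (h : HasValue P A B x v 1) : HasValue P A B x (eV P A B x) 1 := by
  have h1 : ∃ v, HasValue P A B x v 1 := ⟨v, h⟩
  unfold eV
  rw [dif_pos h1]
  exact h1.choose_spec

theorem eV_eq [P.IsPrime] (hB : B ∉ P) {x : PN N} (hx : x ∈ projVar P) {v : ℂ} (h : HasValue P A B x v 1) : eV P A B x = v :=
  (eV_spec h).unique hB hx h

theorem eV_mul {D : ℕ} (hA : A.IsHomogeneous D) (hB : B.IsHomogeneous D) {x : PN N} (hx : x ∈ projVar P) {v : ℂ} (h : HasValue P A B x v 1) :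
    v * eval x.rep B = eval x.rep A := by
  obtain ⟨d, a, b, ha, hb, hab, hne, hv⟩ := h
  unfold VanishesAt at hne
  rw [mul_one] at hv
  have hb0 : eval x.rep b ≠ 0 := fun h0 => hne ⟨by rw [hv, h0, zero_mul], h0⟩
  have h1 := hx _ hab _ ((ha.mul hB).sub (hb.mul hA))
  unfold VanishesAt at h1
  rw [map_sub, map_mul, map_mul, hv] at h1
  have h2 : eval x.rep b * (v * eval x.rep B - eval x.rep A) = 0 := by linear_combination h1
  exact sub_eq_zero.1 ((mul_eq_zero.1 h2).resolve_left hb0)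

theorem isRegularInto [P.IsPrime] (h : IsPair P G A B W₁ W₂) : IsRegularInto P G (locVar P G) (eV P A B) id := by
  obtain ⟨D, hA, hB⟩ := h.form
  refine ⟨fun x hx => hx, fun x _ x' _ hxx' => hxx', ⟨D, A, B, hA, hB, h.sub_notMem, h.B_notMem, fun x hx => ?_⟩, fun x hx hxU => ?_⟩
  · obtain ⟨v, -, hv⟩ := h.unit x hx
    exact eV_mul hA hB (locVar_sub hx) (eV_spec hv)
  · have hv : ∀ x : Fin (N + 1) → ℂ, vals (fun i => (X i : MvPolynomial (Fin (N + 1)) ℂ)) x = x := fun x => funext fun i => eval_X i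
    refine ⟨1, fun i => X i, fun i => isHomogeneous_X ℂ i, by rw [hv]; exact hx, fun x' hx' h' _ => ?_⟩
    have h1 : ∀ (y : Fin (N + 1) → ℂ) (hy : y ≠ 0), y = x' → Projectivization.mk ℂ x' hx' = Projectivization.mk ℂ y hy := by
      rintro y hy rfl
      rfl
    exact h1 _ _ (hv x')

theorem eV_ne_zero [P.IsPrime] (h : IsPair P G A B W₁ W₂) {x : PN N} (hx : x ∈ locVar P G) : eV P A B x ≠ 0 := by
  obtain ⟨v, hv0, hv⟩ := h.unit x hx
  rw [eV_eq h.B_notMem (locVar_sub hx) hv]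
  exact hv0

theorem eV_analytic [P.IsPrime] (h : IsPair P G A B W₁ W₂) {g : ℂ → PN N} {z : ℂ}
    (hg : ∃ φ : ℂ → Fin (N + 1) → ℂ, AnalyticAt ℂ φ z ∧ ∀ᶠ w in 𝓝 z, ∃ h : φ w ≠ 0, g w = Projectivization.mk ℂ (φ w) h)
    (hgU : ∀ᶠ w in 𝓝 z, g w ∈ locVar P G) : AnalyticAt ℂ (fun w => eV P A B (g w)) z := by
  obtain ⟨φ, hφ, he⟩ := hg
  obtain ⟨v, -, d, a, b, ha, hb, hab, hne, hv⟩ := h.unit _ hgU.self_of_nhds
  obtain ⟨h0, hg0⟩ := he.self_of_nhds
  have hb0 : eval (φ z) b ≠ 0 := by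
    intro h1
    apply hne
    have h2 : VanishesAt b (g z) := by
      rw [hg0, vanishesAt_mk_iff hb _ h0]
      exact h1
    refine ⟨?_, h2⟩
    unfold VanishesAt at h2 ⊢
    rw [mul_one] at hv
    rw [hv, h2, zero_mul]
  have h3 : AnalyticAt ℂ (fun w => eval (φ w) a / eval (φ w) b) z := (analyticAt_form hφ a).div (analyticAt_form hφ b) hb0
  refine h3.congr ?_
  filter_upwards [he, hgU, (analyticAt_form hφ b).continuousAt.eventually_ne hb0] with w h4 h5 h6
  obtain ⟨h7, h8⟩ := h4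
  symm
  have h9 : ¬ VanishesAt b (g w) := by
    rw [h8, vanishesAt_mk_iff hb _ h7]
    exact h6
  refine eV_eq h.B_notMem (locVar_sub h5) ⟨d, a, b, ha, hb, hab, fun h10 => h9 h10.2, ?_⟩
  obtain ⟨κ, hκ, hrep⟩ := rep_mk_fin h7
  rw [h8, hrep, eval_smul_form ha, eval_smul_form hb, mul_one]
  field_simp

end Pool.Agent.H46.LR
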